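import Mathlib

/-! Half-plane nonvanishing posinomials are log-concave (MP_9b7b99_co, Q1: true).
Definitions and the statements of all tasks. -/

set_option autoImplicit false

namespace H81P

open Finset Real

/-- the posinomial with coefficients `c` and exponent vectors `α` (complex variables,
principal branches) -/
noncomputable def posC {n : ℕ} {ι : Type} [Fintype ι] (c : ι → ℝ) (α : ι → Fin n → ℝ)
    (x : Fin n → ℂ) : ℂ :=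
  ∑ i, (c i : ℂ) * ∏ j, (x j) ^ ((α i j : ℝ) : ℂ)

/-- the same posinomial on the positive orthant -/
noncomputable def posR {n : ℕ} {ι : Type} [Fintype ι] (c : ι → ℝ) (α : ι → Fin n → ℝ)
    (x : Fin n → ℝ) : ℝ :=
  ∑ i, c i * ∏ j, (x j) ^ (α i j)

/-- the posinomial in logarithmic coordinates -/
noncomputable def EE {n : ℕ} {ι : Type} [Fintype ι] (c : ι → ℝ) (α : ι → Fin n → ℝ)
    (y : Fin n → ℂ) : ℂ :=
  ∑ i, (c i : ℂ) * Complex.exp (∑ j, (α i j : ℂ) * y j)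

/-- the logarithmic image of the right half-plane -/
def YY (n : ℕ) : Set (Fin n → ℂ) := {y | ∀ j, |(y j).im| < π / 2}

/-- the open strip -/
def SS : Set ℂ := {ζ | |ζ.im| < π}

/-- `x(ζ) = e^(-ζ/2) u + e^(ζ/2) v` -/
noncomputable def xx {n : ℕ} (u v : Fin n → ℝ) (ζ : ℂ) (j : Fin n) : ℂ :=
  Complex.exp (-ζ / 2) * (u j : ℂ) + Complex.exp (ζ / 2) * (v j : ℂ)

/-- hypotheses on a posinomial -/
structure IsPos {n : ℕ} {ι : Type} [Fintype ι] (c : ι → ℝ) (α : ι → Fin n → ℝ) (d : ℝ) :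
    Prop where
  hc : ∀ i, 0 ≤ c i
  hα : ∀ i j, 0 ≤ α i j
  hd : ∀ i, ∑ j, α i j = d
  hne : ∃ i, 0 < c i

/-- `l` is a continuous logarithm of `E` on `YY`, real at real points -/
structure IsLog {n : ℕ} {ι : Type} [Fintype ι] (c : ι → ℝ) (α : ι → Fin n → ℝ)
    (l : (Fin n → ℂ) → ℂ) : Prop where
  cont : ContinuousOn l (YY n)
  exp_eq : ∀ y ∈ YY n, Complex.exp (l y) = EE c α y
  real : ∀ y : Fin n → ℂ, (∀ j, (y j).im = 0) → (l y).im = 0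

/-- ROL: Rolle's theorem for the zeros of an exponential sum. -/
def S_ROL : Prop := ∀ (ι : Type) [Fintype ι] (τ c : ι → ℝ) (x : ℝ) (k : ℕ) (Z : Finset ℝ),
  Z.card = k + 1 → (∀ s ∈ Z, ∑ i, c i * exp (τ i * s) = 0) →
  ∃ Z' : Finset ℝ, Z'.card = k ∧ ∀ s ∈ Z', ∑ i, (c i * (τ i - x)) * exp (τ i * s) = 0

/-- DES: Descartes' rule of signs for exponential sums. -/
def S_DES : Prop := ∀ (ι : Type) [Fintype ι] (τ : ι → ℝ) (L : List ℝ) (c : ι → ℝ),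
  (∀ i, 0 ≤ c i * (L.map (fun x => τ i - x)).prod) →
  (∃ i, 0 < c i * (L.map (fun x => τ i - x)).prod) →
  ∀ Z : Finset ℝ, (∀ s ∈ Z, ∑ i, c i * exp (τ i * s) = 0) → Z.card ≤ L.length

/-- SGN: signs of `sin τ ∏ (τ - l π)`. -/
def S_SGN : Prop := ∀ (N : ℕ) (τ : ℝ), 0 ≤ τ → τ ≤ (N + 1 : ℕ) * π →
  0 ≤ ((-1) ^ N * sin τ) *
    (((List.range N).map (fun l : ℕ => ((l : ℝ) + 1) * π)).map (fun x => τ - x)).prod ∧
  (sin τ ≠ 0 → 0 < ((-1) ^ N * sin τ) *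
    (((List.range N).map (fun l : ℕ => ((l : ℝ) + 1) * π)).map (fun x => τ - x)).prod)

/-- DSI: at most `N` zeros of the imaginary part. -/
def S_DSI : Prop := ∀ (ι : Type) [Fintype ι] (τ b : ι → ℝ) (N : ℕ), (∀ i, 0 ≤ b i) →
  (∀ i, 0 < b i → 0 ≤ τ i ∧ τ i ≤ (N + 1 : ℕ) * π) → (∃ i, 0 < b i ∧ sin (τ i) ≠ 0) →
  ∀ Z : Finset ℝ, (∀ s ∈ Z, ∑ i, (b i * sin (τ i)) * exp (τ i * s) = 0) → Z.card ≤ N

/-- LIM: the limit of the continuous argument at infinity is at least `T = max τ`. -/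
def S_LIM : Prop := ∀ (ι : Type) [Fintype ι] (τ b : ι → ℝ) (T : ℝ) (A : ℝ → ℝ → ℝ),
  (∀ i, 0 ≤ b i) → (∀ i, 0 < b i → τ i ≤ T) → (∃ i, 0 < b i ∧ τ i = T) →
  (∀ s, ContinuousOn (A s) (Set.Icc 0 1)) → (∀ s, A s 0 = 0) →
  (∀ s : ℝ, ∀ t ∈ Set.Icc (0 : ℝ) 1, ∃ r : ℝ, 0 < r ∧
    ∑ i, (b i : ℂ) * Complex.exp ((τ i : ℂ) * ((s : ℂ) + (t : ℂ) * Complex.I)) =
      (r : ℂ) * Complex.exp ((A s t : ℂ) * Complex.I)) →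
  ∀ ε > 0, ∃ s₀ : ℝ, ∀ s ≥ s₀, T - ε < A s 1

/-- ARG: the continuous argument is nonnegative. -/
def S_ARG : Prop := ∀ (ι : Type) [Fintype ι] (τ b : ι → ℝ) (A : ℝ → ℝ → ℝ),
  (∀ i, 0 ≤ b i) → (∃ i, 0 < b i) → (∀ i, 0 ≤ τ i) →
  (∀ s, ContinuousOn (A s) (Set.Icc 0 1)) → (Continuous fun s => A s 1) → (∀ s, A s 0 = 0) →
  (∀ s : ℝ, ∀ t ∈ Set.Icc (0 : ℝ) 1, ∃ r : ℝ, 0 < r ∧
    ∑ i, (b i : ℂ) * Complex.exp ((τ i : ℂ) * ((s : ℂ) + (t : ℂ) * Complex.I)) =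
      (r : ℂ) * Complex.exp ((A s t : ℂ) * Complex.I)) →
  ∀ s, 0 ≤ A s 1

/-- LOW: lower bound for the argument. -/
def S_LOW : Prop := ∀ (n : ℕ) (ι : Type) [Fintype ι] (c : ι → ℝ) (α : ι → Fin n → ℝ) (d : ℝ)
  (l : (Fin n → ℂ) → ℂ), IsPos c α d → IsLog c α l → ∀ (β : ℝ) (y : Fin n → ℂ), 0 ≤ β →
  y ∈ YY n → (∀ j, -β ≤ (y j).im) → -(d * β) ≤ (l y).im

/-- LIF: existence of the logarithm. -/
def S_LIF : Prop := ∀ (n : ℕ) (ι : Type) [Fintype ι] (c : ι → ℝ) (α : ι → Fin n → ℝ) (d : ℝ),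
  IsPos c α d → (∀ y ∈ YY n, EE c α y ≠ 0) → ∃ l : (Fin n → ℂ) → ℂ, IsLog c α l

/-- BND: two-sided bound for the argument. -/
def S_BND : Prop := ∀ (n : ℕ) (ι : Type) [Fintype ι] (c : ι → ℝ) (α : ι → Fin n → ℝ) (d : ℝ)
  (l : (Fin n → ℂ) → ℂ), IsPos c α d → IsLog c α l → ∀ (β : ℝ) (y : Fin n → ℂ), 0 ≤ β →
  y ∈ YY n → (∀ j, |(y j).im| ≤ β) → |(l y).im| ≤ d * β

/-- HOL: a continuous logarithm of a holomorphic function is holomorphic. -/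
def S_HOL : Prop := ∀ (U : Set ℂ) (k : ℂ → ℂ), IsOpen U → ContinuousOn k U →
  DifferentiableOn ℂ (fun z => Complex.exp (k z)) U → DifferentiableOn ℂ k U

/-- XHP: `x(ζ)` has positive real part on the strip, and its argument is at most `Im ζ / 2`. -/
def S_XHP : Prop := ∀ (n : ℕ) (u v : Fin n → ℝ), (∀ j, 0 < u j) → (∀ j, 0 < v j) →
  ∀ ζ ∈ SS, ∀ j, 0 < (xx u v ζ j).re ∧ |(Complex.log (xx u v ζ j)).im| ≤ |ζ.im| / 2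

/-- HMG: elementary properties of a posinomial on the positive orthant. -/
def S_HMG : Prop := ∀ (n : ℕ) (ι : Type) [Fintype ι] (c : ι → ℝ) (α : ι → Fin n → ℝ) (d : ℝ),
  IsPos c α d → (∀ x : Fin n → ℝ, (∀ j, 0 < x j) → 0 < posR c α x) ∧
  (∀ (x : Fin n → ℝ) (r : ℝ), 0 < r → (∀ j, 0 < x j) →
    posR c α (fun j => r * x j) = r ^ d * posR c α x) ∧
  (∀ x y : Fin n → ℝ, (∀ j, 0 < x j) → (∀ j, x j ≤ y j) → posR c α x ≤ posR c α y)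

/-- EXR: relations between `posC`, `EE` and `posR`. -/
def S_EXR : Prop := ∀ (n : ℕ) (ι : Type) [Fintype ι] (c : ι → ℝ) (α : ι → Fin n → ℝ) (d : ℝ),
  IsPos c α d → (∀ x : Fin n → ℂ, (∀ j, 0 < (x j).re) →
    EE c α (fun j => Complex.log (x j)) = posC c α x) ∧
  (∀ y : Fin n → ℂ, y ∈ YY n → EE c α y = posC c α (fun j => Complex.exp (y j))) ∧
  (∀ x : Fin n → ℝ, (∀ j, 0 < x j) → posC c α (fun j => (x j : ℂ)) = (posR c α x : ℂ)) ∧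
  (∀ x : Fin n → ℂ, (∀ j, 0 < (x j).re) → ‖posC c α x‖ ≤ posR c α (fun j => ‖x j‖))

/-- KFU: the function `K(ζ) = e^(ζ/2) f(x(ζ))^(1/d)`. -/
def S_KFU : Prop := ∀ (n : ℕ) (ι : Type) [Fintype ι] (c : ι → ℝ) (α : ι → Fin n → ℝ) (d : ℝ),
  0 < d → IsPos c α d → (∀ x : Fin n → ℂ, (∀ j, 0 < (x j).re) → posC c α x ≠ 0) →
  ∀ u v : Fin n → ℝ, (∀ j, 0 < u j) → (∀ j, 0 < v j) →
  ∃ K : ℂ → ℂ, DifferentiableOn ℂ K SS ∧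
    (∀ s : ℝ, K s = ((posR c α (fun j => u j + exp s * v j) ^ (1 / d) : ℝ) : ℂ)) ∧
    (∀ ζ ∈ SS, 0 ≤ ζ.im → ∃ r κ : ℝ, 0 < r ∧ 0 ≤ κ ∧ κ ≤ ζ.im ∧
      K ζ = r * Complex.exp (κ * Complex.I)) ∧
    (∀ ζ ∈ SS, ‖K ζ‖ ≤ posR c α (fun j => u j + exp ζ.re * v j) ^ (1 / d))

/-- GRO: linear growth. -/
def S_GRO : Prop := ∀ (n : ℕ) (ι : Type) [Fintype ι] (c : ι → ℝ) (α : ι → Fin n → ℝ) (d : ℝ),
  0 < d → IsPos c α d → ∀ u v : Fin n → ℝ, (∀ j, 0 < u j) → (∀ j, 0 < v j) →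
  ∃ C : ℝ, 0 < C ∧ ∀ t : ℝ, 0 < t →
    posR c α (fun j => u j + t * v j) ^ (1 / d) ≤ C * (1 + t)

/-- RAY: the estimate on the ray. -/
def S_RAY : Prop := ∀ (η κ r ρ x k : ℝ) (z w : ℂ), π / 2 ≤ η → η < π → 0 ≤ κ → κ ≤ η →
  0 < r → 0 < ρ → 0 < x → 0 < k → z = ρ * Complex.exp (η * Complex.I) →
  w = r * Complex.exp (κ * Complex.I) →
  ((w - k) / (z - x)).im ≤ k * sin η / (2 * x)

/-- PHL: the Phragmen-Lindelof step. `K` is holomorphic on the strip, positive on the real line,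
`0 ≤ arg K(ζ) ≤ Im ζ`, and of linear growth. -/
def S_PHL : Prop := ∀ (K : ℂ → ℂ) (k : ℝ → ℝ) (C : ℝ), DifferentiableOn ℂ K SS →
  (∀ s : ℝ, 0 < k s) → (∀ s : ℝ, K s = (k s : ℂ)) →
  (∀ ζ ∈ SS, 0 ≤ ζ.im → ∃ r κ : ℝ, 0 < r ∧ 0 ≤ κ ∧ κ ≤ ζ.im ∧
      K ζ = r * Complex.exp (κ * Complex.I)) →
  (∀ ζ ∈ SS, ‖K ζ‖ ≤ C * (1 + exp ζ.re)) →
  ∀ ξ : ℝ, ∀ ζ : ℂ, 0 < ζ.im → ζ.im < π →
    ((K ζ - K ξ) / (Complex.exp ζ - Complex.exp ξ)).im ≤ 0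

/-- ANT: the slopes are antitone. -/
def S_ANT : Prop := ∀ (K : ℂ → ℂ) (k : ℝ → ℝ), DifferentiableOn ℂ K SS →
  (∀ s : ℝ, K s = (k s : ℂ)) →
  (∀ ξ : ℝ, ∀ ζ : ℂ, 0 < ζ.im → ζ.im < π →
    ((K ζ - K ξ) / (Complex.exp ζ - Complex.exp ξ)).im ≤ 0) →
  ∀ ξ a b : ℝ, a < b → a ≠ ξ → b ≠ ξ →
    (k b - k ξ) / (exp b - exp ξ) ≤ (k a - k ξ) / (exp a - exp ξ)

/-- CCV: concavity from antitone slopes. -/
def S_CCV : Prop := ∀ (F : ℝ → ℝ), (∀ ξ a b : ℝ, a < b → a ≠ ξ → b ≠ ξ →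
    (F (exp b) - F (exp ξ)) / (exp b - exp ξ) ≤ (F (exp a) - F (exp ξ)) / (exp a - exp ξ)) →
  ConcaveOn ℝ (Set.Ioi 0) F

/-- SUP: from concavity along positive directions to concavity. -/
def S_SUP : Prop := ∀ (n : ℕ) (F : (Fin n → ℝ) → ℝ),
  (∀ (x : Fin n → ℝ) (r : ℝ), 0 < r → (∀ j, 0 < x j) → F (fun j => r * x j) = r * F x) →
  (∀ u v : Fin n → ℝ, (∀ j, 0 < u j) → (∀ j, 0 < v j) →
    ConcaveOn ℝ (Set.Ioi 0) (fun t : ℝ => F (fun j => u j + t * v j))) →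
  ConcaveOn ℝ {x : Fin n → ℝ | ∀ j, 0 < x j} F

/-- LGC: the logarithm. -/
def S_LGC : Prop := ∀ (n : ℕ) (f : (Fin n → ℝ) → ℝ) (d : ℝ), 0 < d →
  (∀ x : Fin n → ℝ, (∀ j, 0 < x j) → 0 < f x) →
  ConcaveOn ℝ {x : Fin n → ℝ | ∀ j, 0 < x j} (fun x => f x ^ (1 / d)) →
  ConcaveOn ℝ {x : Fin n → ℝ | ∀ j, 0 < x j} (fun x => log (f x))

/-- the theorem -/
def S_MAIN : Prop := ∀ (n : ℕ) (ι : Type) [Fintype ι] (c : ι → ℝ) (α : ι → Fin n → ℝ) (d : ℝ),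
  (∀ i, 0 ≤ c i) → (∀ i j, 0 ≤ α i j) → (∀ i, ∑ j, α i j = d) →
  (∀ x : Fin n → ℂ, (∀ j, 0 < (x j).re) → posC c α x ≠ 0) →
  (∀ x : Fin n → ℝ, (∀ j, 0 < x j) → 0 < posR c α x) ∧
  (0 < d → ConcaveOn ℝ {x : Fin n → ℝ | ∀ j, 0 < x j} (fun x => posR c α x ^ (1 / d))) ∧
  ConcaveOn ℝ {x : Fin n → ℝ | ∀ j, 0 < x j} (fun x => log (posR c α x))

end H81P
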