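import Mathlib
import Pool.Agent.H81R2.PN.Defs

/-! The slopes are antitone (task ANT). -/

set_option autoImplicit false

namespace H81P

open Finset Real

theorem ANT_SS_open : IsOpen SS := by
  have : SS = (fun ζ : ℂ => |ζ.im|) ⁻¹' Set.Iio π := rfl
  rw [this]
  exact isOpen_Iio.preimage (by fun_prop)

theorem ANT_real_mem (s : ℝ) : (s : ℂ) ∈ SS := by
  simp [SS, pi_pos]

/-- `exp` is injective near: on the strip `|Im| < π`, `exp ζ = exp ξ` with `ξ` real only at `ξ`. -/
theorem ANT_exp_ne (ζ : ℂ) (ξ : ℝ) (hζ : ζ ∈ SS) (hne : ζ ≠ (ξ : ℂ)) :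
    Complex.exp ζ ≠ Complex.exp ξ := by
  intro h
  apply hne
  have hζ' : |ζ.im| < π := hζ
  rw [abs_lt] at hζ'
  have h1 := congrArg Complex.log h
  rw [Complex.log_exp (by linarith) (by linarith), Complex.log_exp (by simp [pi_pos])
    (by simp [pi_pos.le])] at h1
  exact h1

theorem ANT : S_ANT := by
  intro K k hK hk hIm ξ a b hab haξ hbξ
  -- the two difference quotients
  set f : ℂ → ℂ := dslope K (ξ : ℂ) with hf
  set g : ℂ → ℂ := dslope Complex.exp (ξ : ℂ) with hg
  have hSS : SS ∈ nhds (ξ : ℂ) := ANT_SS_open.mem_nhds (ANT_real_mem ξ)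
  have hfd : DifferentiableOn ℂ f SS := (Complex.differentiableOn_dslope hSS).mpr hK
  have hgd : DifferentiableOn ℂ g SS :=
    (Complex.differentiableOn_dslope hSS).mpr Complex.differentiable_exp.differentiableOn
  have hgne : ∀ ζ ∈ SS, g ζ ≠ 0 := by
    intro ζ hζ
    by_cases h : ζ = (ξ : ℂ)
    · rw [h, hg, dslope_same]
      simp [Complex.exp_ne_zero]
    · rw [hg, dslope_of_ne _ h, slope_def_field]
      exact div_ne_zero (sub_ne_zero.mpr (ANT_exp_ne ζ ξ hζ h)) (sub_ne_zero.mpr h)
  set M : ℂ → ℂ := fun ζ => f ζ / g ζ with hM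
  have hMd : DifferentiableOn ℂ M SS := hfd.div hgd hgne
  have hMval : ∀ ζ : ℂ, ζ ≠ (ξ : ℂ) →
      M ζ = (K ζ - K ξ) / (Complex.exp ζ - Complex.exp ξ) := by
    intro ζ h
    simp only [hM, hf, hg]
    rw [dslope_of_ne _ h, dslope_of_ne _ h, slope_def_field, slope_def_field,
      div_div_div_cancel_right₀ (sub_ne_zero.mpr h)]
  have hMreal : ∀ s : ℝ, s ≠ ξ → M s = (((k s - k ξ) / (exp s - exp ξ) : ℝ) : ℂ) := by
    intro s hs
    rw [hMval _ (by exact_mod_cast hs), hk, hk]
    push_cast
    rfl
  -- imaginary part on the real line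
  have hMat : ∀ s : ℝ, DifferentiableAt ℂ M s := fun s =>
    hMd.differentiableAt (ANT_SS_open.mem_nhds (ANT_real_mem s))
  have hline : ∀ s : ℝ, HasDerivAt (fun x : ℝ => M x) (deriv M s) s := fun s =>
    (hMat s).hasDerivAt.comp_ofReal
  have hMim : ∀ s : ℝ, (M s).im = 0 := by
    have hc : Continuous (fun s : ℝ => (M s).im) := by
      apply Complex.continuous_im.comp
      exact continuous_iff_continuousAt.mpr fun s => (hline s).continuousAt
    have hz : Set.EqOn (fun s : ℝ => (M s).im) (fun _ => (0 : ℝ)) {ξ}ᶜ := by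
      intro s hs
      have hs' : s ≠ ξ := hs
      simp only [hMreal s hs', Complex.ofReal_im]
    have hd : Dense ({ξ}ᶜ : Set ℝ) := dense_compl_singleton ξ
    have := hc.ext_on hd continuous_const hz
    intro s
    exact congrFun this s
  -- derivative in the vertical direction
  have hvert : ∀ s : ℝ, (deriv M s).re ≤ 0 := by
    intro s
    have h1 : HasDerivAt (fun t : ℝ => (s : ℂ) + (t : ℂ) * Complex.I) Complex.I 0 := by
      have h := ((Complex.ofRealCLM.hasDerivAt (x := (0 : ℝ))).mul_const Complex.I).const_add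
        (s : ℂ)
      simpa using h
    have h2 : HasDerivAt M (deriv M s) ((s : ℂ) + ((0 : ℝ) : ℂ) * Complex.I) := by
      simpa using (hMat s).hasDerivAt
    have h3 : HasDerivAt (fun t : ℝ => M ((s : ℂ) + (t : ℂ) * Complex.I))
        (deriv M s * Complex.I) 0 := by
      have h := HasDerivAt.comp (h₂ := M) (0 : ℝ) h2 h1
      exact h
    have h4 : HasDerivAt (fun t : ℝ => (M ((s : ℂ) + (t : ℂ) * Complex.I)).im)
        (deriv M s * Complex.I).im 0 :=
      (Complex.imCLM.hasFDerivAt.comp_hasDerivAt (0 : ℝ) h3)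
    have h5 : (deriv M s * Complex.I).im = (deriv M s).re := by simp
    rw [h5] at h4
    -- right limit of the slope
    have h6 := h4.hasDerivWithinAt (s := Set.Ioi (0 : ℝ))
    rw [hasDerivWithinAt_iff_tendsto_slope' (by simp)] at h6
    refine le_of_tendsto h6 ?_
    have h7 : Set.Ioo (0 : ℝ) π ∈ nhdsWithin (0 : ℝ) (Set.Ioi 0) :=
      Ioo_mem_nhdsGT pi_pos
    filter_upwards [h7] with t ht
    rw [slope_def_field]
    have h8 : (M ((s : ℂ) + ((0 : ℝ) : ℂ) * Complex.I)).im = 0 := by
      have := hMim s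
      simpa using this
    have h9 : (M ((s : ℂ) + (t : ℂ) * Complex.I)).im ≤ 0 := by
      have himt : ((s : ℂ) + (t : ℂ) * Complex.I).im = t := by simp
      rw [hMval]
      · apply hIm
        · rw [himt]; exact ht.1
        · rw [himt]; exact ht.2
      · intro hh
        have := congrArg Complex.im hh
        rw [himt] at this
        simp at this
        linarith [ht.1]
    rw [h8]
    apply div_nonpos_of_nonpos_of_nonneg
    · linarith
    · linarith [ht.1]
  -- the real part is antitone
  have hr : ∀ s : ℝ, HasDerivAt (fun x : ℝ => (M x).re) (deriv M s).re s := fun s =>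
    Complex.reCLM.hasFDerivAt.comp_hasDerivAt s (hline s)
  have hanti : Antitone (fun x : ℝ => (M x).re) := by
    apply antitone_of_deriv_nonpos
    · exact fun s => (hr s).differentiableAt
    · intro s
      rw [(hr s).deriv]
      exact hvert s
  have hfin := hanti hab.le
  simp only [hMreal a haξ, hMreal b hbξ, Complex.ofReal_re] at hfin
  exact hfin

end H81P
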