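import Pool.Agent.H81R2.PN.Defs

/-! Task ARG: the continuous argument is nonnegative. -/

set_option autoImplicit false

namespace H81P

open Finset Real

theorem ARG_im {ι : Type} [Fintype ι] (τ b : ι → ℝ) (s r B : ℝ)
    (h : ∑ i, (b i : ℂ) * Complex.exp ((τ i : ℂ) * ((s : ℂ) + ((1 : ℝ) : ℂ) * Complex.I)) =
      (r : ℂ) * Complex.exp ((B : ℂ) * Complex.I)) :
    ∑ i, (b i * sin (τ i)) * exp (τ i * s) = r * sin B := by
  have h1 := congrArg Complex.im h
  rw [Complex.im_sum, Complex.im_ofReal_mul, Complex.exp_ofReal_mul_I_im] at h1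
  rw [← h1]
  refine Finset.sum_congr rfl fun i _ => ?_
  rw [Complex.im_ofReal_mul, Complex.exp_im, Complex.re_ofReal_mul, Complex.im_ofReal_mul]
  simp
  ring

theorem ARG (h1 : S_DSI) (h2 : S_LIM) : S_ARG := by
  intro ι _ τ b A hb hb' hτ hA hB h0 hE
  classical
  by_contra hcon
  push Not at hcon
  obtain ⟨s₁, hs₁⟩ := hcon
  -- the imaginary part
  have him : ∀ s : ℝ, ∃ r : ℝ, 0 < r ∧
      ∑ i, (b i * sin (τ i)) * exp (τ i * s) = r * sin (A s 1) := by
    intro s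
    obtain ⟨r, hr, h⟩ := hE s 1 ⟨zero_le_one, le_rfl⟩
    exact ⟨r, hr, ARG_im τ b s r (A s 1) h⟩
  -- the maximum
  obtain ⟨i₀, hi₀⟩ := hb'
  obtain ⟨m, hm, hmax⟩ := Finset.exists_max_image (Finset.univ.filter fun i => 0 < b i) τ
    ⟨i₀, by simp [hi₀]⟩
  have hbm : 0 < b m := (Finset.mem_filter.1 hm).2
  have hT : ∀ i, 0 < b i → τ i ≤ τ m := fun i hi => hmax i (by simp [hi])
  have hlim := h2 ι τ b (τ m) A hb hT ⟨m, hbm, rfl⟩ hA h0 hE
  -- values of the argument
  have hval : ∀ y : ℝ, A s₁ 1 ≤ y → y < τ m → ∃ s, A s 1 = y := by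
    intro y hy1 hy2
    obtain ⟨s₀, hs₀⟩ := hlim (τ m - y) (by linarith)
    have h3 := hs₀ s₀ le_rfl
    exact mem_range_of_exists_le_of_exists_ge hB ⟨s₁, hy1⟩ ⟨s₀, by linarith⟩
  by_cases hsin : ∃ i, 0 < b i ∧ sin (τ i) ≠ 0
  · -- second case
    obtain ⟨i₁, hi₁, hsi₁⟩ := hsin
    have hpos : 0 < τ i₁ := by
      rcases (hτ i₁).lt_or_eq with h | h
      · exact h
      · exact absurd (by rw [← h, sin_zero]) hsi₁
    have hTpos : 0 < τ m := hpos.trans_le (hT i₁ hi₁)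
    obtain ⟨N, hN⟩ : ∃ N : ℕ, ⌈τ m / π⌉₊ = N + 1 :=
      Nat.exists_eq_succ_of_ne_zero (Nat.ceil_pos.2 (div_pos hTpos pi_pos)).ne'
    have hlev : ∀ l : Fin (N + 1), ∃ s, A s 1 = (l : ℕ) * π := by
      intro l
      have hl : ((l : ℕ) : ℝ) < τ m / π := Nat.lt_ceil.1 (by rw [hN]; exact l.2)
      rw [lt_div_iff₀ pi_pos] at hl
      refine hval _ ?_ hl
      have : (0 : ℝ) ≤ (l : ℕ) * π := by positivity
      linarith
    choose s hs using hlev
    have hinj : Function.Injective s := by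
      intro l l' hll
      have h3 : ((l : ℕ) : ℝ) * π = (l' : ℕ) * π := by rw [← hs l, ← hs l', hll]
      have h4 := mul_right_cancel₀ pi_ne_zero h3
      exact Fin.ext (by exact_mod_cast h4)
    have hcard : (Finset.univ.image s).card = N + 1 := by
      rw [Finset.card_image_of_injective _ hinj, Finset.card_univ, Fintype.card_fin]
    have h5 := h1 ι τ b N hb (fun i hi => ⟨hτ i, ?_⟩) ⟨i₁, hi₁, hsi₁⟩ (Finset.univ.image s) ?_
    · omega
    · have h6 : τ m / π ≤ (⌈τ m / π⌉₊ : ℝ) := Nat.le_ceil _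
      rw [hN, div_le_iff₀ pi_pos] at h6
      exact (hT i hi).trans h6
    · intro x hx
      obtain ⟨l, _, rfl⟩ := Finset.mem_image.1 hx
      obtain ⟨r, _, hr⟩ := him (s l)
      rw [hr, hs l, sin_nat_mul_pi, mul_zero]
  · -- first case
    push Not at hsin
    have hT0 : 0 ≤ τ m := hτ m
    set y : ℝ := max (A s₁ 1 / 2) (-1) with hy
    have hy0 : y < 0 := max_lt (by linarith) (by norm_num)
    have hy1 : A s₁ 1 ≤ y := le_trans (by linarith) (le_max_left _ _)
    have hy2 : -π < y := lt_of_lt_of_le (by linarith [pi_gt_three]) (le_max_right _ _)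
    obtain ⟨s, hs⟩ := hval y hy1 (by linarith)
    obtain ⟨r, hr, h3⟩ := him s
    have h4 : ∑ i, (b i * sin (τ i)) * exp (τ i * s) = 0 := by
      refine Finset.sum_eq_zero fun i _ => ?_
      rcases (hb i).lt_or_eq with h | h
      · rw [hsin i h]; simp
      · rw [← h]; simp
    rw [h4, hs] at h3
    have h5 : sin y < 0 := sin_neg_of_neg_of_neg_pi_lt hy0 hy2
    have h6 : r * sin y < 0 := mul_neg_of_pos_of_neg hr h5
    linarith

end H81P
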