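import Pool.Agent.H81R2.PN.Defs

set_option autoImplicit false

namespace H81P

open Finset Real

lemma BND_conjE {n : ℕ} {ι : Type} [Fintype ι] (c : ι → ℝ) (α : ι → Fin n → ℝ)
    (y : Fin n → ℂ) :
    EE c α (fun j => (starRingEnd ℂ) (y j)) = (starRingEnd ℂ) (EE c α y) := by
  unfold EE
  rw [map_sum]
  apply Finset.sum_congr rfl
  intro i _
  rw [map_mul, Complex.conj_ofReal, ← Complex.exp_conj, map_sum]
  congr 2
  apply Finset.sum_congr rfl
  intro j _
  rw [map_mul, Complex.conj_ofReal]

lemma BND_memY {n : ℕ} {y : Fin n → ℂ} (hy : y ∈ YY n) :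
    (fun j => (starRingEnd ℂ) (y j)) ∈ YY n := by
  intro j
  have := hy j
  simpa [abs_neg] using this

theorem BND (h : S_LOW) : S_BND := by
  intro n ι _ c α d l hP hl β y hβ hy hb
  have hlow := h n ι c α d l hP hl β y hβ hy (fun j => (abs_le.mp (hb j)).1)
  have hl' : IsLog c α (fun y => (starRingEnd ℂ) (l (fun j => (starRingEnd ℂ) (y j)))) := by
    refine ⟨?_, ?_, ?_⟩
    · have h1 : ContinuousOn (fun y : Fin n → ℂ => l (fun j => (starRingEnd ℂ) (y j)))
          (YY n) := by
        apply hl.cont.comp
        · exact (continuous_pi (fun j => Complex.continuous_conj.comp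
            (continuous_apply j))).continuousOn
        · intro y hy
          exact BND_memY hy
      exact Complex.continuous_conj.comp_continuousOn h1
    · intro y hy
      rw [Complex.exp_conj, hl.exp_eq _ (BND_memY hy), BND_conjE, Complex.conj_conj]
    · intro y hy
      rw [Complex.conj_im, hl.real]
      · simp
      · intro j
        rw [Complex.conj_im, hy j, neg_zero]
  have hup := h n ι c α d _ hP hl' β (fun j => (starRingEnd ℂ) (y j)) hβ (BND_memY hy)
    (fun j => by
      rw [Complex.conj_im]
      have := (abs_le.mp (hb j)).2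
      linarith)
  simp only [Complex.conj_im, Complex.conj_conj] at hup
  rw [abs_le]
  constructor
  · exact hlow
  · linarith

end H81P
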