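import Mathlib
import Pool.Agent.H81R2.PN.Defs

/-! Concavity from antitone slopes. -/

namespace H81P

open Real

theorem CCV : S_CCV := by
  intro F hF
  apply concaveOn_of_slope_anti_adjacent (convex_Ioi 0)
  intro x y z hx hz hxy hyz
  have hx0 : (0 : ℝ) < x := hx
  have hy0 : 0 < y := lt_trans hx0 hxy
  have hz0 : (0 : ℝ) < z := hz
  have h1 := hF (Real.log y) (Real.log x) (Real.log z)
    (Real.log_lt_log hx0 (lt_trans hxy hyz))
    (ne_of_lt (Real.log_lt_log hx0 hxy)) (ne_of_gt (Real.log_lt_log hy0 hyz))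
  rw [Real.exp_log hx0, Real.exp_log hy0, Real.exp_log hz0] at h1
  have h2 : (F x - F y) / (x - y) = (F y - F x) / (y - x) := by
    rw [← neg_sub (F y) (F x), ← neg_sub y x, neg_div_neg_eq]
  rw [h2] at h1
  exact h1

end H81P
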