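import Pool.Agent.H81R2.PN.Defs

set_option autoImplicit false

namespace H81P

open Finset Real

theorem DES (h : S_ROL) : S_DES := by
  intro ι _ τ L
  induction L with
  | nil =>
    intro c h0 h1 Z hZ
    by_contra hcon
    have hne : Z.Nonempty := by
      rw [Finset.nonempty_iff_ne_empty]
      rintro rfl
      simp at hcon
    obtain ⟨s, hs⟩ := hne
    have hz := hZ s hs
    simp only [List.map_nil, List.prod_nil, mul_one] at h0 h1
    have hpos : 0 < ∑ i, c i * exp (τ i * s) := by
      obtain ⟨i, hi⟩ := h1
      exact Finset.sum_pos' (fun j _ => mul_nonneg (h0 j) (exp_pos _).le)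
        ⟨i, Finset.mem_univ _, mul_pos hi (exp_pos _)⟩
    linarith
  | cons x L ih =>
    intro c h0 h1 Z hZ
    rcases Nat.eq_zero_or_pos Z.card with hc | hc
    · rw [hc]; exact Nat.zero_le _
    · obtain ⟨k, hk⟩ : ∃ k, Z.card = k + 1 := ⟨Z.card - 1, by omega⟩
      obtain ⟨Z', hZ', hs'⟩ := h ι τ c x k Z hk hZ
      have hle : Z'.card ≤ L.length := by
        apply ih (fun i => c i * (τ i - x)) _ _ Z' hs'
        · intro i
          have := h0 i
          simp only [List.map_cons, List.prod_cons] at this
          calc 0 ≤ c i * ((τ i - x) * (L.map (fun x => τ i - x)).prod) := this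
            _ = _ := by ring
        · obtain ⟨i, hi⟩ := h1
          refine ⟨i, ?_⟩
          simp only [List.map_cons, List.prod_cons] at hi
          calc 0 < c i * ((τ i - x) * (L.map (fun x => τ i - x)).prod) := hi
            _ = _ := by ring
      rw [List.length_cons]
      omega

end H81P
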