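import Pool.Agent.H81R2.PN.Defs

set_option autoImplicit false

namespace H81P

open Finset Real

theorem DSI (h1 : S_DES) (h2 : S_SGN) : S_DSI := by
  intro ι _ τ b N hb hτ hex Z hZ
  have key : Z.card ≤ ((List.range N).map (fun l : ℕ => ((l : ℝ) + 1) * π)).length := by
    refine h1 ι τ ((List.range N).map (fun l : ℕ => ((l : ℝ) + 1) * π))
      (fun i => (-1) ^ N * (b i * sin (τ i))) ?_ ?_ Z ?_
    · intro i
      rcases (hb i).eq_or_lt with h | h
      · simp [← h]
      · have h3 := (h2 N (τ i) (hτ i h).1 (hτ i h).2).1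
        have h4 := mul_nonneg h.le h3
        refine h4.trans (le_of_eq ?_)
        ring
    · obtain ⟨i, hi, hs⟩ := hex
      refine ⟨i, ?_⟩
      have h3 := (h2 N (τ i) (hτ i hi).1 (hτ i hi).2).2 hs
      have h4 := mul_pos hi h3
      refine h4.trans_le (le_of_eq ?_)
      ring
    · intro s hs
      have h3 := hZ s hs
      have h4 : ∑ i, (fun i => (-1) ^ N * (b i * sin (τ i))) i * exp (τ i * s)
          = (-1) ^ N * ∑ i, (b i * sin (τ i)) * exp (τ i * s) := by
        rw [Finset.mul_sum]
        refine Finset.sum_congr rfl fun i _ => ?_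
        ring
      rw [h4, h3, mul_zero]
  simpa using key

end H81P
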