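import Pool.Agent.H81R2.PN.Defs

/-! EXR: relations between `posC`, `EE` and `posR` (helper778 for helper81). -/

set_option autoImplicit false

namespace H81P

open Finset Real

theorem EXR_aux {n : ℕ} {ι : Type} [Fintype ι] (c : ι → ℝ) (α : ι → Fin n → ℝ) (x : Fin n → ℂ)
    (hx : ∀ j, x j ≠ 0) : EE c α (fun j => Complex.log (x j)) = posC c α x := by
  unfold EE posC
  refine Finset.sum_congr rfl fun i _ => ?_
  rw [Complex.exp_sum]
  congr 1
  refine Finset.prod_congr rfl fun j _ => ?_
  rw [Complex.cpow_def_of_ne_zero (hx j), mul_comm]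

theorem EXR : S_EXR := by
  intro n ι _ c α d h
  have hpi : (0 : ℝ) < π := Real.pi_pos
  refine ⟨fun x hx => ?_, fun y hy => ?_, fun x hx => ?_, fun x hx => ?_⟩
  · refine EXR_aux c α x fun j h0 => ?_
    have := hx j
    rw [h0, Complex.zero_re] at this
    exact lt_irrefl _ this
  · rw [← EXR_aux c α (fun j => Complex.exp (y j)) fun j => Complex.exp_ne_zero _]
    congr 1
    funext j
    have hj := hy j
    rw [abs_lt] at hj
    rw [Complex.log_exp (by linarith [hj.1]) (by linarith [hj.2])]
  · unfold posC posR
    push_cast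
    refine Finset.sum_congr rfl fun i _ => ?_
    congr 1
    refine Finset.prod_congr rfl fun j _ => ?_
    rw [Complex.ofReal_cpow (hx j).le]
  · unfold posC posR
    refine (norm_sum_le _ _).trans (Finset.sum_le_sum fun i _ => ?_)
    rw [norm_mul, norm_prod, Complex.norm_real, Real.norm_eq_abs, abs_of_nonneg (h.hc i)]
    refine le_of_eq ?_
    congr 1
    refine Finset.prod_congr rfl fun j _ => ?_
    rw [Complex.norm_cpow_real]

end H81P
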