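import Pool.Agent.H81R2.PN.Defs

set_option autoImplicit false

namespace H81P

open Finset Real

theorem GRO (h : S_HMG) : S_GRO := by
  intro n ι _ c α d hd hP u v hu hv
  obtain ⟨hpos, hhom, hmon⟩ := h n ι c α d hP
  have huv : ∀ j, 0 < u j + v j := fun j => add_pos (hu j) (hv j)
  have hC : 0 < posR c α (fun j => u j + v j) := hpos _ huv
  refine ⟨posR c α (fun j => u j + v j) ^ (1 / d), Real.rpow_pos_of_pos hC _, ?_⟩
  intro t ht
  have ht1 : 0 < 1 + t := by linarith
  have h1 : posR c α (fun j => u j + t * v j) ≤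
      posR c α (fun j => (1 + t) * (u j + v j)) := by
    apply hmon
    · intro j
      exact add_pos (hu j) (mul_pos ht (hv j))
    · intro j
      nlinarith [hu j, hv j, mul_pos ht (hu j), mul_pos ht (hv j)]
  rw [hhom (fun j => u j + v j) (1 + t) ht1 huv] at h1
  have h0 : 0 ≤ posR c α (fun j => u j + t * v j) :=
    (hpos _ (fun j => add_pos (hu j) (mul_pos ht (hv j)))).le
  calc posR c α (fun j => u j + t * v j) ^ (1 / d)
      ≤ ((1 + t) ^ d * posR c α (fun j => u j + v j)) ^ (1 / d) :=
        Real.rpow_le_rpow h0 h1 (by positivity)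
    _ = posR c α (fun j => u j + v j) ^ (1 / d) * (1 + t) := by
        rw [Real.mul_rpow (Real.rpow_nonneg ht1.le _) hC.le, ← Real.rpow_mul ht1.le,
          mul_one_div_cancel hd.ne', Real.rpow_one, mul_comm]

end H81P
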