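import Pool.Agent.H81R2.PN.Defs

/-! HMG: elementary properties of a posinomial on the positive orthant
(helper778 for helper81). -/

set_option autoImplicit false

namespace H81P

open Finset Real

theorem HMG : S_HMG := by
  intro n ι _ c α d h
  obtain ⟨hc, hα, hd, ⟨i₀, hi₀⟩⟩ := h
  have hprod : ∀ (x : Fin n → ℝ), (∀ j, 0 < x j) → ∀ i, 0 < ∏ j, (x j) ^ (α i j) :=
    fun x hx i => Finset.prod_pos fun j _ => rpow_pos_of_pos (hx j) _
  refine ⟨fun x hx => ?_, fun x r hr hx => ?_, fun x y hx hxy => ?_⟩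
  · unfold posR
    exact Finset.sum_pos' (fun i _ => mul_nonneg (hc i) (hprod x hx i).le)
      ⟨i₀, Finset.mem_univ _, mul_pos hi₀ (hprod x hx i₀)⟩
  · unfold posR
    rw [Finset.mul_sum]
    refine Finset.sum_congr rfl fun i _ => ?_
    have h1 : ∏ j, (r * x j) ^ (α i j) = r ^ d * ∏ j, (x j) ^ (α i j) := by
      rw [← hd i, rpow_sum_of_pos hr, ← Finset.prod_mul_distrib]
      refine Finset.prod_congr rfl fun j _ => ?_
      rw [mul_rpow hr.le (hx j).le]
    rw [h1]
    ring
  · unfold posR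
    refine Finset.sum_le_sum fun i _ => mul_le_mul_of_nonneg_left ?_ (hc i)
    exact Finset.prod_le_prod (fun j _ => (rpow_pos_of_pos (hx j) _).le)
      fun j _ => rpow_le_rpow (hx j).le (hxy j) (hα i j)

end H81P
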