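import Pool.Agent.H81R2.PN.Defs

/-! HOL: a continuous logarithm of a holomorphic function is holomorphic
(helper778 for helper81). -/

set_option autoImplicit false

namespace H81P

open Finset Real

theorem HOL : S_HOL := by
  intro U k hU hk hE
  intro z₀ hz₀
  refine DifferentiableAt.differentiableWithinAt ?_
  have hUn : U ∈ nhds z₀ := hU.mem_nhds hz₀
  have hkc : ContinuousAt k z₀ := hk.continuousAt hUn
  have hEd : DifferentiableAt ℂ (fun z => Complex.exp (k z)) z₀ :=
    hE.differentiableAt hUn
  have h1 : DifferentiableAt ℂ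
      (fun z => k z₀ + Complex.log (Complex.exp (k z) / Complex.exp (k z₀))) z₀ := by
    refine (differentiableAt_const _).add ?_
    refine DifferentiableAt.clog (hEd.div_const _) ?_
    rw [div_self (Complex.exp_ne_zero _)]
    exact Complex.one_mem_slitPlane
  refine h1.congr_of_eventuallyEq ?_
  have hnear : ∀ᶠ z in nhds z₀, ‖k z - k z₀‖ < 1 := by
    have := Metric.tendsto_nhds.1 hkc 1 one_pos
    filter_upwards [this] with z hz
    rwa [dist_eq_norm] at hz
  filter_upwards [hnear] with z hz
  rw [← Complex.exp_sub]
  have him : |(k z - k z₀).im| < 1 := lt_of_le_of_lt (Complex.abs_im_le_norm _) hz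
  rw [abs_lt] at him
  have hpi : (3 : ℝ) < π := Real.pi_gt_three
  rw [Complex.log_exp (by linarith) (by linarith)]
  ring

end H81P
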