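import Pool.Agent.H81R2.PN.Defs

/-! Task KFU (helper81): the function `K(ζ) = e^(ζ/2) f(x(ζ))^(1/d)`. -/

set_option autoImplicit false

namespace H81P

open Finset Real

theorem KFU_open : IsOpen SS := by
  have h : SS = (fun ζ : ℂ => |ζ.im|) ⁻¹' Set.Iio π := rfl
  rw [h]
  exact isOpen_Iio.preimage (by fun_prop)

/-- `x(s)` for real `s` -/
noncomputable def KFU_x {n : ℕ} (u v : Fin n → ℝ) (s : ℝ) (j : Fin n) : ℝ :=
  exp (-s / 2) * u j + exp (s / 2) * v j

theorem KFU_xpos {n : ℕ} (u v : Fin n → ℝ) (hu : ∀ j, 0 < u j) (hv : ∀ j, 0 < v j) (s : ℝ)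
    (j : Fin n) : 0 < KFU_x u v s j := by
  unfold KFU_x
  have h1 := mul_pos (exp_pos (-s / 2)) (hu j)
  have h2 := mul_pos (exp_pos (s / 2)) (hv j)
  linarith

theorem KFU_xx {n : ℕ} (u v : Fin n → ℝ) (s : ℝ) (j : Fin n) :
    xx u v (s : ℂ) j = ((KFU_x u v s j : ℝ) : ℂ) := by
  unfold xx KFU_x
  push_cast
  rfl

theorem KFU_norm {n : ℕ} (u v : Fin n → ℝ) (hu : ∀ j, 0 < u j) (hv : ∀ j, 0 < v j) (ζ : ℂ)
    (j : Fin n) : ‖xx u v ζ j‖ ≤ KFU_x u v ζ.re j := by
  unfold xx KFU_x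
  refine (norm_add_le _ _).trans ?_
  rw [norm_mul, norm_mul, Complex.norm_exp, Complex.norm_exp, Complex.norm_real,
    Complex.norm_real, Real.norm_of_nonneg (hu j).le, Real.norm_of_nonneg (hv j).le]
  have h1 : (-ζ / 2).re = -ζ.re / 2 := by simp
  have h2 : (ζ / 2).re = ζ.re / 2 := by simp
  rw [h1, h2]

theorem KFU_scale {n : ℕ} {ι : Type} [Fintype ι] {c : ι → ℝ} {α : ι → Fin n → ℝ} {d : ℝ}
    (h5 : S_HMG) (hd : 0 < d) (hP : IsPos c α d) (u v : Fin n → ℝ) (hu : ∀ j, 0 < u j)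
    (hv : ∀ j, 0 < v j) (s : ℝ) :
    posR c α (fun j => u j + exp s * v j) ^ (1 / d) =
      exp (s / 2) * posR c α (KFU_x u v s) ^ (1 / d) := by
  obtain ⟨hpos, hhom, -⟩ := h5 n ι c α d hP
  have h1 : (fun j => u j + exp s * v j) = fun j => exp (s / 2) * KFU_x u v s j := by
    funext j
    unfold KFU_x
    rw [mul_add, ← mul_assoc, ← mul_assoc, ← exp_add, ← exp_add]
    have e1 : s / 2 + -s / 2 = 0 := by ring
    have e2 : s / 2 + s / 2 = s := by ring
    rw [e1, e2, exp_zero, one_mul]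
  rw [h1, hhom _ _ (exp_pos _) (KFU_xpos u v hu hv s)]
  have h2 := hpos _ (KFU_xpos u v hu hv s)
  rw [Real.mul_rpow (Real.rpow_nonneg (exp_pos _).le _) h2.le, ← Real.rpow_mul (exp_pos _).le]
  rw [mul_one_div_cancel hd.ne', Real.rpow_one]

theorem KFU (h1 : S_LIF) (h2 : S_BND) (h3 : S_HOL) (h4 : S_XHP) (h5 : S_HMG) (h6 : S_EXR) :
    S_KFU := by
  intro n ι _ c α d hd hP hnv u v hu hv
  obtain ⟨hE1, hE2, hE3, hE4⟩ := h6 n ι c α d hP
  obtain ⟨hpos, hhom, hmono⟩ := h5 n ι c α d hP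
  -- `EE ≠ 0`
  have hEne : ∀ y ∈ YY n, EE c α y ≠ 0 := by
    intro y hy
    rw [hE2 y hy]
    apply hnv
    intro j
    rw [Complex.exp_re]
    have hj := abs_lt.1 (hy j)
    exact mul_pos (exp_pos _) (cos_pos_of_mem_Ioo ⟨hj.1, hj.2⟩)
  obtain ⟨l, hl⟩ := h1 n ι c α d hP hEne
  set Y : ℂ → Fin n → ℂ := fun ζ j => Complex.log (xx u v ζ j) with hY
  have hre : ∀ ζ ∈ SS, ∀ j, 0 < (xx u v ζ j).re := fun ζ hζ j => (h4 n u v hu hv ζ hζ j).1
  have harg : ∀ ζ ∈ SS, ∀ j, |(Y ζ j).im| ≤ |ζ.im| / 2 :=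
    fun ζ hζ j => (h4 n u v hu hv ζ hζ j).2
  have hYY : ∀ ζ ∈ SS, Y ζ ∈ YY n := by
    intro ζ hζ j
    have h7 : |ζ.im| < π := hζ
    exact (harg ζ hζ j).trans_lt (by linarith)
  have hslit : ∀ ζ ∈ SS, ∀ j, xx u v ζ j ∈ Complex.slitPlane := by
    intro ζ hζ j
    exact Or.inl (hre ζ hζ j)
  have hxxd : ∀ j, Differentiable ℂ (fun ζ => xx u v ζ j) := by
    intro j
    unfold xx
    fun_prop
  have hYd : ∀ j, DifferentiableOn ℂ (fun ζ => Y ζ j) SS := by
    intro j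
    exact (hxxd j).differentiableOn.clog (fun ζ hζ => hslit ζ hζ j)
  have hYc : ContinuousOn Y SS := by
    rw [continuousOn_pi]
    intro j
    exact (hYd j).continuousOn
  have hkc : ContinuousOn (fun ζ => l (Y ζ)) SS := hl.cont.comp hYc hYY
  have hexp : ∀ ζ ∈ SS, Complex.exp (l (Y ζ)) = posC c α (xx u v ζ) := by
    intro ζ hζ
    rw [hl.exp_eq _ (hYY ζ hζ)]
    exact hE1 _ (hre ζ hζ)
  have hkd : DifferentiableOn ℂ (fun ζ => l (Y ζ)) SS := by
    refine h3 SS _ KFU_open hkc ?_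
    have h8 : DifferentiableOn ℂ (fun ζ => EE c α (Y ζ)) SS := by
      unfold EE
      refine DifferentiableOn.fun_sum fun i _ => ?_
      refine DifferentiableOn.const_mul ?_ _
      refine DifferentiableOn.cexp ?_
      refine DifferentiableOn.fun_sum fun j _ => ?_
      exact (hYd j).const_mul _
    refine h8.congr fun ζ hζ => ?_
    exact hl.exp_eq _ (hYY ζ hζ)
  refine ⟨fun ζ => Complex.exp (ζ / 2 + l (Y ζ) / (d : ℂ)), ?_, ?_, ?_, ?_⟩
  · refine DifferentiableOn.cexp ?_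
    exact (differentiableOn_id.div_const _).add (hkd.div_const _)
  · intro s
    have hs : (s : ℂ) ∈ SS := by
      show |(s : ℂ).im| < π
      rw [Complex.ofReal_im, abs_zero]
      exact pi_pos
    have hx := KFU_xpos u v hu hv s
    have hY0 : ∀ j, (Y s j).im = 0 := by
      intro j
      simp only [hY]
      rw [KFU_xx, Complex.log_im, Complex.arg_ofReal_of_nonneg (hx j).le]
    have him := hl.real (Y s) hY0
    have hxeq : xx u v (s : ℂ) = fun j => ((KFU_x u v s j : ℝ) : ℂ) := by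
      funext j
      exact KFU_xx u v s j
    have h9 := hexp s hs
    rw [hxeq, hE3 _ hx] at h9
    have hlre : l (Y s) = (((l (Y s)).re : ℝ) : ℂ) := by
      apply Complex.ext
      · simp
      · simp [him]
    rw [hlre, ← Complex.ofReal_exp, Complex.ofReal_inj] at h9
    rw [KFU_scale h5 hd hP u v hu hv s, ← h9]
    show Complex.exp ((s : ℂ) / 2 + l (Y s) / (d : ℂ)) = _
    rw [hlre, ← Real.exp_mul]
    push_cast
    rw [← Complex.exp_add]
    congr 1
    rw [Complex.ofReal_re]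
    ring
  · intro ζ hζ h0
    refine ⟨exp (ζ.re / 2 + (l (Y ζ)).re / d), ζ.im / 2 + (l (Y ζ)).im / d, exp_pos _, ?_, ?_, ?_⟩
    · have h10 := h2 n ι c α d l hP hl (|ζ.im| / 2) (Y ζ) (by positivity) (hYY ζ hζ) (harg ζ hζ)
      rw [abs_of_nonneg h0] at h10
      have h11 : -(ζ.im / 2) ≤ (l (Y ζ)).im / d := by
        rw [le_div_iff₀ hd]
        have := (abs_le.1 h10).1
        linarith
      linarith
    · have h10 := h2 n ι c α d l hP hl (|ζ.im| / 2) (Y ζ) (by positivity) (hYY ζ hζ) (harg ζ hζ)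
      rw [abs_of_nonneg h0] at h10
      have h11 : (l (Y ζ)).im / d ≤ ζ.im / 2 := by
        rw [div_le_iff₀ hd]
        have := (abs_le.1 h10).2
        linarith
      linarith
    · rw [Complex.ofReal_exp, ← Complex.exp_add]
      show Complex.exp (ζ / 2 + l (Y ζ) / (d : ℂ)) = _
      refine congrArg Complex.exp ?_
      apply Complex.ext
      · simp
      · simp
  · intro ζ hζ
    have hx := KFU_xpos u v hu hv ζ.re
    rw [KFU_scale h5 hd hP u v hu hv ζ.re, Complex.norm_exp]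
    have hre2 : (ζ / 2 + l (Y ζ) / (d : ℂ)).re = ζ.re / 2 + (l (Y ζ)).re / d := by simp
    rw [hre2, exp_add]
    refine mul_le_mul_of_nonneg_left ?_ (exp_pos _).le
    have h12 : exp ((l (Y ζ)).re) ≤ posR c α (KFU_x u v ζ.re) := by
      rw [← Complex.norm_exp, hexp ζ hζ]
      refine (hE4 _ (hre ζ hζ)).trans ?_
      refine hmono _ _ ?_ ?_
      · intro j
        rw [norm_pos_iff]
        intro h13
        have := hre ζ hζ j
        rw [h13] at this
        simp at this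
      · intro j
        exact KFU_norm u v hu hv ζ j
    have h14 : exp ((l (Y ζ)).re / d) = (exp ((l (Y ζ)).re)) ^ (1 / d) := by
      rw [← Real.exp_mul]
      congr 1
      ring
    rw [h14]
    exact Real.rpow_le_rpow (exp_pos _).le h12 (by positivity)

end H81P
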