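import Pool.Agent.H81R2.PN.Defs

set_option autoImplicit false

namespace H81P

open Finset Real

theorem LGC : S_LGC := by
  intro n f d hd hf hconc
  refine ⟨hconc.1, ?_⟩
  intro x hx y hy a b ha hb hab
  have hxy : a • x + b • y ∈ {x : Fin n → ℝ | ∀ j, 0 < x j} := hconc.1 hx hy ha hb hab
  have h1 := hconc.2 hx hy ha hb hab
  have hlog : ∀ z : Fin n → ℝ, (∀ j, 0 < z j) → log (f z) = d * log (f z ^ (1 / d)) := by
    intro z hz
    rw [Real.log_rpow (hf z hz)]
    field_simp
  have hpx : 0 < f x ^ (1 / d) := Real.rpow_pos_of_pos (hf x hx) _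
  have hpy : 0 < f y ^ (1 / d) := Real.rpow_pos_of_pos (hf y hy) _
  have h2 := strictConcaveOn_log_Ioi.concaveOn.2 (Set.mem_Ioi.mpr hpx) (Set.mem_Ioi.mpr hpy)
    ha hb hab
  simp only [smul_eq_mul] at h1 h2 ⊢
  have hpos : 0 < a * f x ^ (1 / d) + b * f y ^ (1 / d) := by
    rcases ha.eq_or_lt with h | h
    · have : b = 1 := by linarith
      rw [← h, this]
      simpa using hpy
    · have := mul_pos h hpx
      have h' := mul_nonneg hb hpy.le
      linarith
  have h3 := Real.log_le_log hpos h1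
  rw [hlog x hx, hlog y hy, hlog _ hxy]
  have h4 := mul_le_mul_of_nonneg_left (h2.trans h3) hd.le
  linarith

end H81P
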