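import Pool.Agent.H81R2.PN.Defs

/-! PN task LIF: existence of the continuous logarithm. -/

set_option autoImplicit false

namespace H81P

open Finset Real

theorem LIF_open (n : ℕ) : IsOpen (YY n) := by
  have : YY n = ⋂ j : Fin n, {y : Fin n → ℂ | |(y j).im| < π / 2} := by
    ext y
    simp [YY]
  rw [this]
  apply isOpen_iInter_of_finite
  intro j
  exact isOpen_lt (Complex.continuous_im.comp (continuous_apply j)).abs continuous_const

theorem LIF_convex (n : ℕ) : Convex ℝ (YY n) := by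
  intro x hx y hy a b ha hb hab j
  have h1 : |(x j).im| < π / 2 := hx j
  have h2 : |(y j).im| < π / 2 := hy j
  have h3 : ((a • x + b • y) j).im = a * (x j).im + b * (y j).im := by
    simp
  rw [h3, abs_lt]
  rw [abs_lt] at h1 h2
  constructor
  · rcases eq_or_lt_of_le ha with h | h
    · have : b = 1 := by linarith
      rw [← h, this]; linarith [h2.1]
    · nlinarith [mul_lt_mul_of_pos_left h1.1 h, mul_le_mul_of_nonneg_left h2.1.le hb]
  · rcases eq_or_lt_of_le ha with h | h
    · have : b = 1 := by linarith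
      rw [← h, this]; linarith [h2.2]
    · nlinarith [mul_lt_mul_of_pos_left h1.2 h, mul_le_mul_of_nonneg_left h2.2.le hb]

theorem LIF_zero (n : ℕ) : (0 : Fin n → ℂ) ∈ YY n := by
  intro j
  simp [Real.pi_pos]

theorem LIF_cont {n : ℕ} {ι : Type} [Fintype ι] (c : ι → ℝ) (α : ι → Fin n → ℝ) :
    Continuous (EE c α) := by
  unfold EE
  fun_prop

theorem LIF_real {n : ℕ} {ι : Type} [Fintype ι] (c : ι → ℝ) (α : ι → Fin n → ℝ)
    (hc : ∀ i, 0 ≤ c i) (hne : ∃ i, 0 < c i) (y : Fin n → ℂ) (hy : ∀ j, (y j).im = 0) :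
    ∃ r : ℝ, 0 < r ∧ EE c α y = (r : ℂ) := by
  refine ⟨∑ i, c i * Real.exp (∑ j, α i j * (y j).re), ?_, ?_⟩
  · obtain ⟨i, hi⟩ := hne
    exact Finset.sum_pos' (fun i _ => mul_nonneg (hc i) (Real.exp_pos _).le)
      ⟨i, Finset.mem_univ i, mul_pos hi (Real.exp_pos _)⟩
  · unfold EE
    push_cast
    refine Finset.sum_congr rfl fun i _ => ?_
    congr 2
    refine Finset.sum_congr rfl fun j _ => ?_
    congr 1
    apply Complex.ext
    · simp
    · simp [hy j]

theorem LIF : S_LIF := by
  intro n ι _ c α d hpos hne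
  have hsc : IsSimplyConnected (YY n) := by
    have := (LIF_convex n).contractibleSpace ⟨0, LIF_zero n⟩
    change SimplyConnectedSpace (YY n)
    infer_instance
  obtain ⟨l0, hl0c, hl0⟩ := Complex.exists_continuousOn_eqOn_exp_comp hsc (LIF_open n)
    (LIF_cont c α).continuousOn (by
      rintro ⟨y, hy, h⟩
      exact hne y hy h)
  have hRsub : ∀ y : Fin n → ℂ, (∀ j, (y j).im = 0) → y ∈ YY n := by
    intro y hy j
    rw [hy j]
    simp [Real.pi_pos]
  have hmem : ∀ y : Fin n → ℂ, (∀ j, (y j).im = 0) →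
      (l0 y).im ∈ AddSubgroup.zmultiples (2 * π) := by
    intro y hy
    obtain ⟨r, hr, hr'⟩ := LIF_real c α hpos.hc hpos.hne y hy
    have h1 : Complex.exp (l0 y) = Complex.exp ((Real.log r : ℝ) : ℂ) := by
      rw [← Complex.ofReal_exp, Real.exp_log hr, ← hr']
      exact hl0 (hRsub y hy)
    rw [Complex.exp_eq_exp_iff_exists_int] at h1
    obtain ⟨m, hm⟩ := h1
    rw [AddSubgroup.mem_zmultiples_iff]
    refine ⟨m, ?_⟩
    rw [hm]
    simp
  have hconst : ∀ y : Fin n → ℂ, (∀ j, (y j).im = 0) → (l0 y).im = (l0 0).im := by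
    have hconv : Convex ℝ {y : Fin n → ℂ | ∀ j, (y j).im = 0} := by
      intro x hx y hy a b _ _ _ j
      have h1 : (x j).im = 0 := hx j
      have h2 : (y j).im = 0 := hy j
      simp [h1, h2]
    intro y hy
    refine hconv.isPreconnected.constant_of_mapsTo (f := fun y => (l0 y).im)
      (T := (AddSubgroup.zmultiples (2 * π) : Set ℝ)) ?_ ?_ ?_ hy (by intro j; simp)
    · rw [isDiscrete_iff_discreteTopology]
      exact inferInstanceAs (DiscreteTopology (AddSubgroup.zmultiples (2 * π)))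
    · exact Complex.continuous_im.comp_continuousOn (hl0c.mono fun y hy => hRsub y hy)
    · intro y hy
      exact hmem y hy
  have hexp0 : Complex.exp (((l0 0).im : ℂ) * Complex.I) = 1 := by
    obtain ⟨m, hm⟩ := AddSubgroup.mem_zmultiples_iff.1 (hmem 0 (by intro j; simp))
    rw [Complex.exp_eq_one_iff]
    refine ⟨m, ?_⟩
    rw [← hm]
    push_cast [zsmul_eq_mul]
    ring
  refine ⟨fun y => l0 y - ((l0 0).im : ℂ) * Complex.I, ⟨?_, ?_, ?_⟩⟩
  · exact hl0c.sub continuousOn_const
  · intro y hy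
    rw [Complex.exp_sub, hexp0, div_one]
    exact hl0 hy
  · intro y hy
    simp [hconst y hy]

end H81P
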