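import Pool.Agent.H81R2.PN.Defs

/-! Task LIM: the limit of the continuous argument at infinity. -/

set_option autoImplicit false

namespace H81P

open Finset Real Filter Topology

theorem LIM_term (x y b : ℝ) (s t : ℝ) :
    ((b : ℂ) * Complex.exp (((x : ℂ) - (y : ℂ)) * ((s : ℂ) + (t : ℂ) * Complex.I))).re =
      b * exp ((x - y) * s) * cos ((x - y) * t) := by
  have e : ((x : ℂ) - (y : ℂ)) * ((s : ℂ) + (t : ℂ) * Complex.I) =
      (((x - y) * s : ℝ) : ℂ) + (((x - y) * t : ℝ) : ℂ) * Complex.I := by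
    push_cast
    ring
  rw [e, Complex.re_ofReal_mul, Complex.exp_re]
  simp [Complex.add_re, Complex.add_im]
  ring_nf

theorem LIM_norm (x y b : ℝ) (hb : 0 ≤ b) (s t : ℝ) :
    ‖(b : ℂ) * Complex.exp (((x : ℂ) - (y : ℂ)) * ((s : ℂ) + (t : ℂ) * Complex.I))‖ =
      b * exp ((x - y) * s) := by
  have e : ((x : ℂ) - (y : ℂ)) * ((s : ℂ) + (t : ℂ) * Complex.I) =
      (((x - y) * s : ℝ) : ℂ) + (((x - y) * t : ℝ) : ℂ) * Complex.I := by
    push_cast
    ring
  rw [e, norm_mul, Complex.norm_exp, Complex.norm_real, norm_of_nonneg hb, Complex.add_re,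
    Complex.ofReal_re, Complex.re_ofReal_mul, Complex.I_re, mul_zero, add_zero]

theorem LIM : S_LIM := by
  intro ι _ τ b T A hb hT hex hc h0 hg ε hε
  obtain ⟨i0, hi0, hτ0⟩ := hex
  classical
  set bT : ℝ := ∑ i, if τ i = T then b i else 0 with hbTdef
  have hbT : 0 < bT := by
    refine lt_of_lt_of_le hi0 ?_
    have := Finset.single_le_sum (f := fun i => if τ i = T then b i else 0)
      (fun i _ => by
        show 0 ≤ if τ i = T then b i else 0
        split_ifs
        · exact hb i
        · exact le_refl _) (Finset.mem_univ i0)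
    simpa [hτ0] using this
  set R : ℝ → ℝ := fun s => ∑ i, if τ i = T then 0 else b i * exp ((τ i - T) * s) with hRdef
  have hRl : Tendsto R atTop (𝓝 0) := by
    have : Tendsto R atTop (𝓝 (∑ i : ι, (0 : ℝ))) := by
      refine tendsto_finsetSum _ fun i _ => ?_
      by_cases hi : τ i = T
      · simp [hi]
      · simp only [hi, if_false]
        rcases (hb i).eq_or_lt with hbi | hbi
        · simp [← hbi]
        · have h1 : τ i - T < 0 := by
            have := lt_of_le_of_ne (hT i hbi) hi
            linarith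
          have h2 : Tendsto (fun s : ℝ => (τ i - T) * s) atTop atBot :=
            tendsto_id.const_mul_atTop_of_neg h1
          have h3 := (tendsto_exp_atBot.comp h2).const_mul (b i)
          simpa using h3
    simpa using this
  set ε' := min ε (π / 2) with hε'
  have hε'0 : 0 < ε' := lt_min hε (by positivity)
  have hε'1 : ε' ≤ π / 2 := min_le_right _ _
  have hcos0 : 0 ≤ cos ε' := cos_nonneg_of_mem_Icc ⟨by linarith [pi_pos], hε'1⟩
  have hcos1 : cos ε' < 1 := by
    have := cos_lt_cos_of_nonneg_of_le_pi_div_two (le_refl 0) hε'1 hε'0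
    rwa [cos_zero] at this
  have hev : ∀ᶠ s in atTop, R s * (1 + cos ε') < bT * (1 - cos ε') := by
    have h1 : Tendsto (fun s => R s * (1 + cos ε')) atTop (𝓝 (0 * (1 + cos ε'))) :=
      hRl.mul_const _
    rw [zero_mul] at h1
    exact h1.eventually_lt_const (mul_pos hbT (by linarith))
  obtain ⟨s₀, hs₀⟩ := eventually_atTop.mp hev
  refine ⟨s₀, fun s hs => ?_⟩
  have hRs := hs₀ s hs
  have key : ∀ t ∈ Set.Icc (0 : ℝ) 1, cos ε' < cos (A s t - T * t) := by
    intro t ht
    obtain ⟨r, hr, hrg⟩ := hg s t ht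
    set D : ℂ := ∑ i, (b i : ℂ) *
      Complex.exp (((τ i : ℂ) - (T : ℂ)) * ((s : ℂ) + (t : ℂ) * Complex.I)) with hD
    have hD1 : D = ((r * exp (-T * s) : ℝ) : ℂ) *
        Complex.exp (((A s t - T * t : ℝ) : ℂ) * Complex.I) := by
      have e1 : D = (∑ i, (b i : ℂ) * Complex.exp ((τ i : ℂ) * ((s : ℂ) + (t : ℂ) * Complex.I))) *
          Complex.exp (-(T : ℂ) * ((s : ℂ) + (t : ℂ) * Complex.I)) := by
        rw [hD, Finset.sum_mul]
        refine Finset.sum_congr rfl fun i _ => ?_
        rw [mul_assoc, ← Complex.exp_add]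
        congr 2
        ring
      rw [e1, hrg, mul_assoc, ← Complex.exp_add]
      push_cast
      rw [mul_assoc, ← Complex.exp_add]
      congr 2
      ring
    have hr' : 0 < r * exp (-T * s) := mul_pos hr (exp_pos _)
    have hDre : D.re = r * exp (-T * s) * cos (A s t - T * t) := by
      rw [hD1, Complex.re_ofReal_mul, Complex.exp_ofReal_mul_I_re]
    have hDn : ‖D‖ = r * exp (-T * s) := by
      rw [hD1, norm_mul, Complex.norm_exp_ofReal_mul_I, mul_one, Complex.norm_real,
        norm_of_nonneg hr'.le]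
    have h1 : bT - R s ≤ D.re := by
      rw [hD, Complex.re_sum, hbTdef, hRdef, ← Finset.sum_sub_distrib]
      refine Finset.sum_le_sum fun i _ => ?_
      rw [LIM_term]
      by_cases hi : τ i = T
      · simp [hi]
      · simp only [hi, if_false, zero_sub]
        have h2 := neg_one_le_cos ((τ i - T) * t)
        have h3 : 0 ≤ b i * exp ((τ i - T) * s) := mul_nonneg (hb i) (exp_pos _).le
        nlinarith
    have h2 : ‖D‖ ≤ bT + R s := by
      rw [hD, hbTdef, hRdef, ← Finset.sum_add_distrib]
      refine (norm_sum_le _ _).trans (Finset.sum_le_sum fun i _ => ?_)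
      rw [LIM_norm _ _ _ (hb i)]
      by_cases hi : τ i = T
      · simp [hi]
      · simp [hi]
    by_contra hcon
    push Not at hcon
    have h3 : D.re ≤ ‖D‖ * cos ε' := by
      rw [hDre, hDn]
      exact mul_le_mul_of_nonneg_left hcon hr'.le
    have h4 : ‖D‖ * cos ε' ≤ (bT + R s) * cos ε' := mul_le_mul_of_nonneg_right h2 hcos0
    nlinarith
  by_contra hcon
  push Not at hcon
  have hBc : ContinuousOn (fun t => A s t - T * t) (Set.Icc 0 1) :=
    (hc s).sub (by fun_prop)
  have hle : ε' ≤ ε := min_le_left _ _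
  have hmem : -ε' ∈ (fun t => A s t - T * t) '' Set.Icc 0 1 := by
    have := intermediate_value_Icc' (zero_le_one' ℝ) hBc
    apply this
    constructor
    · show A s 1 - T * 1 ≤ -ε'
      linarith
    · show -ε' ≤ A s 0 - T * 0
      rw [h0]
      linarith
  obtain ⟨t, ht, hte⟩ := hmem
  have h5 := key t ht
  simp only at hte
  rw [hte, cos_neg] at h5
  exact lt_irrefl _ h5

end H81P
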