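import Mathlib
import Pool.Agent.H81R2.PN.Defs

/-! Lower bound for the argument (task LOW). -/

set_option autoImplicit false

namespace H81P

open Finset Real

/-- the path of points used in the lower bound -/
noncomputable def LOW_Y {n : ℕ} (y : Fin n → ℂ) (β s t : ℝ) (j : Fin n) : ℂ :=
  (((y j).re + ((y j).im + β) * s : ℝ) : ℂ) + (((y j).im * t : ℝ) : ℂ) * Complex.I

theorem LOW_im {n : ℕ} (y : Fin n → ℂ) (β s t : ℝ) (j : Fin n) :
    (LOW_Y y β s t j).im = (y j).im * t := by
  simp [LOW_Y]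

theorem LOW_mem {n : ℕ} (y : Fin n → ℂ) (hy : y ∈ YY n) (β s t : ℝ)
    (ht : t ∈ Set.Icc (0 : ℝ) 1) : LOW_Y y β s t ∈ YY n := by
  intro j
  rw [LOW_im, abs_mul, abs_of_nonneg ht.1]
  exact lt_of_le_of_lt (mul_le_of_le_one_right (abs_nonneg _) ht.2) (hy j)

theorem LOW_one {n : ℕ} (y : Fin n → ℂ) (β : ℝ) : LOW_Y y β 0 1 = y := by
  funext j
  simp [LOW_Y]

theorem LOW (h : S_ARG) : S_LOW := by
  intro n ι _ c α d l hpos hlog β y hβ hy hyβ
  set τ : ι → ℝ := fun i => ∑ j, α i j * ((y j).im + β) with hτ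
  set b : ι → ℝ := fun i => c i * exp (∑ j, α i j * (y j).re) with hb
  set A : ℝ → ℝ → ℝ := fun s t => (l (LOW_Y y β s t)).im + β * d * t with hA
  have key := h ι τ b A ?_ ?_ ?_ ?_ ?_ ?_ ?_ 0
  · simp only [hA] at key
    rw [LOW_one] at key
    linarith
  · intro i
    exact mul_nonneg (hpos.hc i) (exp_pos _).le
  · obtain ⟨i, hi⟩ := hpos.hne
    exact ⟨i, mul_pos hi (exp_pos _)⟩
  · intro i
    refine Finset.sum_nonneg fun j _ => mul_nonneg (hpos.hα i j) ?_
    linarith [hyβ j]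
  · intro s
    simp only [hA]
    have h1 : ContinuousOn (fun t : ℝ => LOW_Y y β s t) (Set.Icc 0 1) := by
      apply Continuous.continuousOn
      unfold LOW_Y
      fun_prop
    have h2 : ContinuousOn (fun t : ℝ => l (LOW_Y y β s t)) (Set.Icc 0 1) :=
      hlog.cont.comp h1 (fun t ht => LOW_mem y hy β s t ht)
    exact (Complex.continuous_im.comp_continuousOn h2).add (by fun_prop)
  · simp only [hA]
    have h1 : Continuous (fun s : ℝ => LOW_Y y β s 1) := by
      unfold LOW_Y
      fun_prop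
    have h2 : Continuous (fun s : ℝ => l (LOW_Y y β s 1)) :=
      hlog.cont.comp_continuous h1 (fun s => LOW_mem y hy β s 1 ⟨zero_le_one, le_rfl⟩)
    exact (Complex.continuous_im.comp h2).add continuous_const
  · intro s
    simp only [hA]
    rw [hlog.real _ (fun j => by rw [LOW_im]; ring)]
    ring
  · intro s t ht
    refine ⟨exp ((l (LOW_Y y β s t)).re), exp_pos _, ?_⟩
    have e1 : ((exp ((l (LOW_Y y β s t)).re) : ℝ) : ℂ) *
        Complex.exp ((A s t : ℂ) * Complex.I) =
        Complex.exp (((β * d * t : ℝ) : ℂ) * Complex.I) * Complex.exp (l (LOW_Y y β s t)) := by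
      rw [Complex.ofReal_exp, ← Complex.exp_add, ← Complex.exp_add]
      congr 1
      conv_rhs => rw [← Complex.re_add_im (l (LOW_Y y β s t))]
      simp only [hA]
      push_cast
      ring
    rw [e1, hlog.exp_eq _ (LOW_mem y hy β s t ht)]
    unfold EE
    rw [Finset.mul_sum]
    refine Finset.sum_congr rfl fun i _ => ?_
    simp only [hb, hτ]
    rw [Complex.ofReal_mul, Complex.ofReal_exp, mul_assoc, ← Complex.exp_add,
      mul_left_comm, ← Complex.exp_add]
    congr 2
    have hd : (∑ j, (α i j : ℂ)) = (d : ℂ) := by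
      rw [← hpos.hd i]; push_cast; rfl
    unfold LOW_Y
    push_cast
    have e2 : ∀ j, (α i j : ℂ) * (((y j).re : ℂ) + (((y j).im : ℂ) + (β : ℂ)) * (s : ℂ) +
        ((y j).im : ℂ) * (t : ℂ) * Complex.I) =
        (α i j : ℂ) * ((y j).re : ℂ) + ((α i j : ℂ) * (((y j).im : ℂ) + (β : ℂ))) *
          ((s : ℂ) + (t : ℂ) * Complex.I) - (α i j : ℂ) * ((β : ℂ) * (t : ℂ) * Complex.I) := by
      intro j
      ring
    rw [Finset.sum_congr rfl (fun j _ => e2 j), Finset.sum_sub_distrib, Finset.sum_add_distrib,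
      ← Finset.sum_mul, ← Finset.sum_mul, hd]
    ring

end H81P
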