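import Pool.Agent.H81R2.PN.Defs

/-! Task MAIN (helper81): assembly. -/

set_option autoImplicit false

namespace H81P

open Finset Real

theorem MAIN_isPos {n : ℕ} {ι : Type} [Fintype ι] {c : ι → ℝ} {α : ι → Fin n → ℝ} {d : ℝ}
    (hc : ∀ i, 0 ≤ c i) (hα : ∀ i j, 0 ≤ α i j) (hd : ∀ i, ∑ j, α i j = d)
    (hnv : ∀ x : Fin n → ℂ, (∀ j, 0 < (x j).re) → posC c α x ≠ 0) : IsPos c α d := by
  refine ⟨hc, hα, hd, ?_⟩
  by_contra hcon
  push Not at hcon
  refine hnv (fun _ => 1) (fun _ => by simp) ?_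
  unfold posC
  refine Finset.sum_eq_zero fun i _ => ?_
  have h0 : c i = 0 := le_antisymm (hcon i) (hc i)
  rw [h0]
  simp

theorem MAIN (hKFU : S_KFU) (hHMG : S_HMG) (hGRO : S_GRO) (hPHL : S_PHL) (hANT : S_ANT)
    (hCCV : S_CCV) (hSUP : S_SUP) (hLGC : S_LGC) : S_MAIN := by
  intro n ι _ c α d hc hα hd hnv
  have hP := MAIN_isPos hc hα hd hnv
  obtain ⟨hpos, hhom, hmono⟩ := hHMG n ι c α d hP
  have hd0 : 0 ≤ d := by
    obtain ⟨i, -⟩ := hP.hne
    rw [← hd i]
    exact Finset.sum_nonneg fun j _ => hα i j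
  have key : 0 < d →
      ConcaveOn ℝ {x : Fin n → ℝ | ∀ j, 0 < x j} (fun x => posR c α x ^ (1 / d)) := by
    intro hdp
    refine hSUP n _ ?_ ?_
    · intro x r hr hx
      show posR c α (fun j => r * x j) ^ (1 / d) = r * posR c α x ^ (1 / d)
      rw [hhom x r hr hx, Real.mul_rpow (Real.rpow_nonneg hr.le _) (hpos x hx).le,
        ← Real.rpow_mul hr.le, mul_one_div_cancel hdp.ne', Real.rpow_one]
    · intro u v hu hv
      obtain ⟨K, hK1, hK2, hK3, hK4⟩ := hKFU n ι c α d hdp hP hnv u v hu hv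
      obtain ⟨C, hC, hgro⟩ := hGRO n ι c α d hdp hP u v hu hv
      refine hCCV _ fun ξ a b hab ha hb => ?_
      have hx : ∀ s : ℝ, ∀ j, 0 < u j + exp s * v j := fun s j =>
        add_pos (hu j) (mul_pos (exp_pos s) (hv j))
      exact hANT K (fun s => posR c α (fun j => u j + exp s * v j) ^ (1 / d)) hK1 hK2
        (hPHL K (fun s => posR c α (fun j => u j + exp s * v j) ^ (1 / d)) C hK1
          (fun s => Real.rpow_pos_of_pos (hpos _ (hx s)) _) hK2 hK3
          (fun ζ hζ => (hK4 ζ hζ).trans (hgro _ (exp_pos _)))) ξ a b hab ha hb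
  refine ⟨hpos, key, ?_⟩
  rcases hd0.lt_or_eq with hdp | hd00
  · exact hLGC n _ d hdp hpos (key hdp)
  · have hconst : ∀ x ∈ {x : Fin n → ℝ | ∀ j, 0 < x j}, posR c α x = ∑ i, c i := by
      intro x hx
      unfold posR
      refine Finset.sum_congr rfl fun i _ => ?_
      have h0 : ∀ j, α i j = 0 := by
        intro j
        have h1 := (Finset.sum_eq_zero_iff_of_nonneg (fun j _ => hα i j)).1
          ((hd i).trans hd00.symm) j (Finset.mem_univ j)
        exact h1
      simp [h0]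
    have hconv : Convex ℝ {x : Fin n → ℝ | ∀ j, 0 < x j} := by
      intro x hx y hy a b ha hb hab j
      have hxj : 0 < x j := hx j
      have hyj : 0 < y j := hy j
      show 0 < a • x j + b • y j
      rw [smul_eq_mul, smul_eq_mul]
      rcases ha.lt_or_eq with ha' | ha'
      · have h2 := mul_pos ha' hxj
        have h3 := mul_nonneg hb hyj.le
        linarith
      · have hb' : b = 1 := by rw [← hab, ← ha', zero_add]
        rw [← ha', hb']
        linarith
    refine (concaveOn_const (Real.log (∑ i, c i)) hconv).congr ?_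
    intro x hx
    show Real.log (∑ i, c i) = Real.log (posR c α x)
    rw [hconst x hx]

end H81P
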