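import Pool.Agent.H81R2.PN.Defs

set_option autoImplicit false

namespace H81P

open Finset Real Filter Topology Set

theorem PHL_slope (f : ℂ → ℂ) (a z : ℂ) (h : z ≠ a) : dslope f a z = (f z - f a) / (z - a) := by
  rw [dslope_of_ne f h, slope_def_field]

/-- the quotient -/
noncomputable def PHL_M (K : ℂ → ℂ) (ξ : ℝ) (ζ : ℂ) : ℂ :=
  dslope K (ξ : ℂ) ζ / dslope Complex.exp (ξ : ℂ) ζ

theorem PHL_M_ne (K : ℂ → ℂ) (ξ : ℝ) (ζ : ℂ) (h : ζ ≠ (ξ : ℂ)) :
    PHL_M K ξ ζ = (K ζ - K ξ) / (Complex.exp ζ - Complex.exp ξ) := by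
  unfold PHL_M
  rw [PHL_slope _ _ _ h, PHL_slope _ _ _ h]
  have h1 : ζ - (ξ : ℂ) ≠ 0 := sub_ne_zero.mpr h
  rw [div_div_div_cancel_right₀ h1]

theorem PHL_SS_open : IsOpen SS := by
  unfold SS
  exact isOpen_lt (by fun_prop) continuous_const

theorem PHL_real_mem (s : ℝ) : (s : ℂ) ∈ SS := by
  unfold SS
  show |(s : ℂ).im| < π
  rw [Complex.ofReal_im, abs_zero]
  exact pi_pos

theorem PHL_exp_ne (ξ : ℝ) (ζ : ℂ) (hζ : ζ ∈ SS) (h : ζ ≠ (ξ : ℂ)) :
    Complex.exp ζ - Complex.exp ξ ≠ 0 := by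
  intro h0
  apply h
  have h1 : |ζ.im| < π := hζ
  rw [abs_lt] at h1
  exact Complex.exp_inj_of_neg_pi_lt_of_le_pi h1.1 h1.2.le
    (by rw [Complex.ofReal_im]; linarith [pi_pos]) (by rw [Complex.ofReal_im]; exact pi_pos.le)
    (sub_eq_zero.mp h0)

theorem PHL_M_diff (K : ℂ → ℂ) (ξ : ℝ) (hK : DifferentiableOn ℂ K SS) :
    DifferentiableOn ℂ (PHL_M K ξ) SS := by
  have hn : SS ∈ 𝓝 (ξ : ℂ) := PHL_SS_open.mem_nhds (PHL_real_mem ξ)
  unfold PHL_M
  apply DifferentiableOn.div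
  · exact (Complex.differentiableOn_dslope hn).mpr hK
  · exact (Complex.differentiableOn_dslope hn).mpr Complex.differentiable_exp.differentiableOn
  · intro ζ hζ
    by_cases h : ζ = (ξ : ℂ)
    · rw [h, dslope_same, Complex.deriv_exp]
      exact Complex.exp_ne_zero _
    · rw [PHL_slope _ _ _ h]
      exact div_ne_zero (PHL_exp_ne ξ ζ hζ h) (sub_ne_zero.mpr h)

theorem PHL_M_real (K : ℂ → ℂ) (k : ℝ → ℝ) (ξ : ℝ) (hK : DifferentiableOn ℂ K SS)
    (hKk : ∀ s : ℝ, K s = (k s : ℂ)) (s : ℝ) : (PHL_M K ξ (s : ℂ)).im = 0 := by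
  have hc : Continuous (fun s : ℝ => (PHL_M K ξ (s : ℂ)).im) := by
    apply Complex.continuous_im.comp
    rw [continuous_iff_continuousAt]
    intro s
    have h1 : ContinuousAt (PHL_M K ξ) (s : ℂ) :=
      ((PHL_M_diff K ξ hK).differentiableAt (PHL_SS_open.mem_nhds (PHL_real_mem s))).continuousAt
    exact ContinuousAt.comp (f := fun s : ℝ => (s : ℂ)) h1 Complex.continuous_ofReal.continuousAt
  have heq : EqOn (fun s : ℝ => (PHL_M K ξ (s : ℂ)).im) (fun _ => 0) {ξ}ᶜ := by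
    intro s hs
    have hne : (s : ℂ) ≠ (ξ : ℂ) := by
      intro h
      apply hs
      exact_mod_cast h
    show (PHL_M K ξ (s : ℂ)).im = 0
    rw [PHL_M_ne K ξ s hne, hKk, hKk, ← Complex.ofReal_exp, ← Complex.ofReal_exp,
      ← Complex.ofReal_sub, ← Complex.ofReal_sub, ← Complex.ofReal_div, Complex.ofReal_im]
  have := Continuous.ext_on (dense_compl_singleton ξ) hc continuous_const heq
  exact congrFun this s

theorem PHL_bound (K : ℂ → ℂ) (C : ℝ) (ξ : ℝ)
    (hgr : ∀ ζ ∈ SS, ‖K ζ‖ ≤ C * (1 + exp ζ.re)) (hC : 0 ≤ C) (ζ : ℂ) (hζ : ζ ∈ SS)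
    (hR : |ξ| + 1 ≤ |ζ.re|) :
    ‖PHL_M K ξ ζ‖ ≤ 2 * (2 * C + ‖K ξ‖) * (1 + exp (-ξ)) := by
  have hne : ζ ≠ (ξ : ℂ) := by
    intro h
    rw [h, Complex.ofReal_re] at hR
    linarith
  rw [PHL_M_ne K ξ ζ hne, norm_div]
  have h1 : |exp ζ.re - exp ξ| ≤ ‖Complex.exp ζ - Complex.exp ξ‖ := by
    have := abs_norm_sub_norm_le (Complex.exp ζ) (Complex.exp ξ)
    rw [Complex.norm_exp, Complex.norm_exp, Complex.ofReal_re] at this
    exact this
  have h2 : ‖K ζ - K ξ‖ ≤ C * (1 + exp ζ.re) + ‖K ξ‖ :=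
    (norm_sub_le _ _).trans (add_le_add (hgr ζ hζ) le_rfl)
  have he : exp (-1 : ℝ) ≤ 1 / 2 := by
    rw [Real.exp_neg, one_div]
    apply inv_anti₀ (by norm_num)
    have := Real.add_one_le_exp (1 : ℝ)
    linarith
  have hD : 0 ≤ 2 * C + ‖K ξ‖ := by positivity
  rcases le_or_gt 0 ζ.re with hre | hre
  · rw [abs_of_nonneg hre] at hR
    have h3 : ξ ≤ ζ.re - 1 := by linarith [le_abs_self ξ]
    have h4 : exp ξ ≤ exp ζ.re / 2 := by
      calc exp ξ ≤ exp (ζ.re + -1) := Real.exp_le_exp.mpr (by linarith)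
        _ = exp ζ.re * exp (-1) := Real.exp_add _ _
        _ ≤ exp ζ.re * (1 / 2) := mul_le_mul_of_nonneg_left he (Real.exp_pos _).le
        _ = exp ζ.re / 2 := by ring
    have h5 : exp ζ.re / 2 ≤ ‖Complex.exp ζ - Complex.exp ξ‖ := by
      refine le_trans ?_ h1
      refine le_trans ?_ (le_abs_self _)
      linarith
    have h6 : 1 ≤ exp ζ.re := Real.one_le_exp hre
    have h7 : 0 < exp ζ.re / 2 := by positivity
    rw [div_le_iff₀ (lt_of_lt_of_le h7 h5)]
    calc ‖K ζ - K ξ‖ ≤ C * (1 + exp ζ.re) + ‖K ξ‖ := h2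
      _ ≤ (2 * C + ‖K ξ‖) * exp ζ.re := by
          have := norm_nonneg (K ξ)
          nlinarith
      _ = 2 * (2 * C + ‖K ξ‖) * 1 * (exp ζ.re / 2) := by ring
      _ ≤ 2 * (2 * C + ‖K ξ‖) * (1 + exp (-ξ)) * ‖Complex.exp ζ - Complex.exp ξ‖ := by
          apply mul_le_mul _ h5 h7.le (by positivity)
          apply mul_le_mul_of_nonneg_left _ (by positivity)
          linarith [Real.exp_pos (-ξ)]
  · rw [abs_of_neg hre] at hR
    have h3 : ζ.re ≤ ξ - 1 := by linarith [neg_abs_le ξ]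
    have h4 : exp ζ.re ≤ exp ξ / 2 := by
      calc exp ζ.re ≤ exp (ξ + -1) := Real.exp_le_exp.mpr (by linarith)
        _ = exp ξ * exp (-1) := Real.exp_add _ _
        _ ≤ exp ξ * (1 / 2) := mul_le_mul_of_nonneg_left he (Real.exp_pos _).le
        _ = exp ξ / 2 := by ring
    have h5 : exp ξ / 2 ≤ ‖Complex.exp ζ - Complex.exp ξ‖ := by
      refine le_trans ?_ h1
      rw [abs_sub_comm]
      refine le_trans ?_ (le_abs_self _)
      linarith
    have h6 : exp ζ.re ≤ 1 := Real.exp_le_one_iff.mpr hre.le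
    have h7 : 0 < exp ξ / 2 := by positivity
    have h8 : exp (-ξ) * exp ξ = 1 := by rw [← Real.exp_add]; simp
    rw [div_le_iff₀ (lt_of_lt_of_le h7 h5)]
    calc ‖K ζ - K ξ‖ ≤ C * (1 + exp ζ.re) + ‖K ξ‖ := h2
      _ ≤ (2 * C + ‖K ξ‖) * 1 := by nlinarith
      _ = (2 * C + ‖K ξ‖) * (exp (-ξ) * exp ξ) := by rw [h8]
      _ = 2 * (2 * C + ‖K ξ‖) * exp (-ξ) * (exp ξ / 2) := by ring
      _ ≤ 2 * (2 * C + ‖K ξ‖) * (1 + exp (-ξ)) * ‖Complex.exp ζ - Complex.exp ξ‖ := by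
          apply mul_le_mul _ h5 h7.le (by positivity)
          apply mul_le_mul_of_nonneg_left _ (by positivity)
          linarith

theorem PHL_norm (w : ℂ) : ‖Complex.exp (-Complex.I * w)‖ = exp w.im := by
  rw [Complex.norm_exp]
  congr 1
  simp

theorem PHL (h : S_RAY) : S_PHL := by
  intro K k C hK hk hKk hKarg hgr ξ ζ hζ0 hζπ
  have hC : 0 ≤ C := by
    have h1 := hgr _ (PHL_real_mem 0)
    have h2 : 0 < 1 + exp ((0 : ℝ) : ℂ).re := by positivity
    by_contra hneg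
    push Not at hneg
    have h3 : C * (1 + exp ((0 : ℝ) : ℂ).re) < 0 := mul_neg_of_neg_of_pos hneg h2
    linarith [norm_nonneg (K ((0 : ℝ) : ℂ))]
  have hζS : ζ ∈ SS := by
    show |ζ.im| < π
    rw [abs_of_pos hζ0]
    exact hζπ
  have hne : ζ ≠ (ξ : ℂ) := by
    intro h0
    rw [h0, Complex.ofReal_im] at hζ0
    exact lt_irrefl _ hζ0
  rw [← PHL_M_ne K ξ ζ hne]
  have hM := PHL_M_diff K ξ hK
  -- the bound for each `η`
  have key : ∀ η : ℝ, π / 2 ≤ η → ζ.im < η → η < π →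
      (PHL_M K ξ ζ).im ≤ k ξ * sin η / (2 * exp ξ) := by
    intro η hη1 hη2 hη3
    have hη0 : 0 < η := by linarith [pi_pos]
    have hsub : Complex.im ⁻¹' Icc 0 η ⊆ SS := by
      intro z hz
      show |z.im| < π
      rw [abs_of_nonneg hz.1]
      linarith [hz.2]
    have hbd : 0 ≤ k ξ * sin η / (2 * exp ξ) := by
      have := hk ξ
      have := sin_nonneg_of_nonneg_of_le_pi hη0.le hη3.le
      positivity
    have hf := PhragmenLindelof.horizontal_strip (f := fun z => Complex.exp (-Complex.I * PHL_M K ξ z))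
      (a := 0) (b := η) (C := exp (k ξ * sin η / (2 * exp ξ))) (z := ζ) ?_ ?_ ?_ ?_ hζ0.le hη2.le
    · rw [PHL_norm] at hf
      exact Real.exp_le_exp.mp hf
    · apply DifferentiableOn.diffContOnCl
      have hcl : closure (Complex.im ⁻¹' Ioo 0 η) ⊆ SS := by
        refine subset_trans ?_ hsub
        apply closure_minimal
        · exact preimage_mono Ioo_subset_Icc_self
        · exact isClosed_Icc.preimage Complex.continuous_im
      have h1 : DifferentiableOn ℂ (PHL_M K ξ) (closure (Complex.im ⁻¹' Ioo 0 η)) := hM.mono hcl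
      exact (h1.const_mul (-Complex.I)).cexp
    · refine ⟨0, by have := pi_pos; positivity,
        2 * (2 * C + ‖K ξ‖) * (1 + exp (-ξ)), ?_⟩
      apply Asymptotics.IsBigO.of_bound 1
      rw [eventually_inf_principal]
      have hev : ∀ᶠ x : ℝ in atTop, |ξ| + 1 ≤ x := eventually_ge_atTop _
      filter_upwards [hev.comap (_root_.abs ∘ Complex.re)] with z hz hzS
      have hzS' : z ∈ SS := hsub (Ioo_subset_Icc_self hzS)
      rw [PHL_norm, one_mul, zero_mul, Real.exp_zero, mul_one, Real.norm_of_nonneg (exp_pos _).le]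
      apply Real.exp_le_exp.mpr
      refine le_trans ?_ (PHL_bound K C ξ hgr hC z hzS' hz)
      exact (le_abs_self _).trans (Complex.abs_im_le_norm _)
    · intro z hz
      have hz' : z = ((z.re : ℝ) : ℂ) := by
        apply Complex.ext
        · simp
        · simp [hz]
      rw [PHL_norm, hz', PHL_M_real K k ξ hK hKk]
      exact Real.exp_le_exp.mpr hbd
    · intro z hz
      rw [PHL_norm]
      apply Real.exp_le_exp.mpr
      have hzS : z ∈ SS := hsub (by rw [Set.mem_preimage, hz]; exact ⟨hη0.le, le_rfl⟩)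
      have hzne : z ≠ (ξ : ℂ) := by
        intro h0
        rw [h0, Complex.ofReal_im] at hz
        linarith
      rw [PHL_M_ne K ξ z hzne]
      obtain ⟨r, κ, hr, hκ0, hκ1, hKz⟩ := hKarg z hzS (by rw [hz]; exact hη0.le)
      rw [hz] at hκ1
      have hexp : Complex.exp z = ((exp z.re : ℝ) : ℂ) * Complex.exp (η * Complex.I) := by
        rw [Complex.ofReal_exp, ← Complex.exp_add]
        congr 1
        rw [← hz]
        exact (Complex.re_add_im z).symm
      have h1 := h η κ r (exp z.re) (exp ξ) (k ξ) (Complex.exp z) (K z) hη1 hη3 hκ0 hκ1 hr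
        (exp_pos _) (exp_pos _) (hk ξ) hexp hKz
      rw [hKk ξ, ← Complex.ofReal_exp]
      exact h1
  -- the limit
  have hlim : Tendsto (fun η : ℝ => k ξ * sin η / (2 * exp ξ)) (𝓝[<] π) (𝓝 0) := by
    have hc : Continuous (fun η : ℝ => k ξ * sin η / (2 * exp ξ)) := by fun_prop
    have h1 := hc.tendsto π
    rw [sin_pi, mul_zero, zero_div] at h1
    exact h1.mono_left nhdsWithin_le_nhds
  apply ge_of_tendsto hlim
  have hev : ∀ᶠ η : ℝ in 𝓝[<] π, η ∈ Ioo (max ζ.im (π / 2)) π :=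
    Ioo_mem_nhdsLT (max_lt hζπ (by linarith [pi_pos]))
  filter_upwards [hev] with η hη
  exact key η (le_trans (le_max_right _ _) hη.1.le) (lt_of_le_of_lt (le_max_left _ _) hη.1) hη.2

end H81P
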