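import Pool.Agent.H81R2.PN.Defs

set_option autoImplicit false

namespace H81P

open Real

theorem RAY : S_RAY := by
  intro η κ r ρ x k z w hη1 hη2 hκ0 hκη hr hρ hx hk hz hw
  have hz' : z = ⟨ρ * cos η, ρ * sin η⟩ := by
    rw [hz, Complex.exp_mul_I]
    apply Complex.ext <;> simp [Complex.cos_ofReal_re, Complex.sin_ofReal_re, Complex.cos_ofReal_im, Complex.sin_ofReal_im]
  have hw' : w = ⟨r * cos κ, r * sin κ⟩ := by
    rw [hw, Complex.exp_mul_I]
    apply Complex.ext <;> simp [Complex.cos_ofReal_re, Complex.sin_ofReal_re, Complex.cos_ofReal_im, Complex.sin_ofReal_im]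
  have hsη : 0 ≤ sin η := sin_nonneg_of_nonneg_of_le_pi (by linarith [pi_pos]) hη2.le
  have hsκ : 0 ≤ sin κ := sin_nonneg_of_nonneg_of_le_pi hκ0 (by linarith)
  have hsd : 0 ≤ sin (η - κ) := sin_nonneg_of_nonneg_of_le_pi (by linarith) (by linarith)
  have hcη : cos η ≤ 0 := cos_nonpos_of_pi_div_two_le_of_le hη1 (by linarith [pi_pos])
  have hsub : sin (η - κ) = sin η * cos κ - cos η * sin κ := sin_sub η κ
  have hN : Complex.normSq (z - x) = ρ ^ 2 - 2 * x * ρ * cos η + x ^ 2 := by
    rw [hz', Complex.normSq_apply]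
    simp only [Complex.sub_re, Complex.ofReal_re, Complex.sub_im, Complex.ofReal_im]
    nlinarith [sin_sq_add_cos_sq η]
  have hN1 : 2 * x * ρ ≤ Complex.normSq (z - x) := by
    rw [hN]
    nlinarith [sq_nonneg (ρ - x), mul_nonneg (mul_nonneg hx.le hρ.le) (neg_nonneg.mpr hcη)]
  have hN0 : 0 < Complex.normSq (z - x) := lt_of_lt_of_le (by positivity) hN1
  have him : ((w - k) / (z - x)).im =
      (k * ρ * sin η - r * ρ * sin (η - κ) - x * r * sin κ) / Complex.normSq (z - x) := by
    rw [Complex.div_im, hz', hw', ← sub_div]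
    congr 1
    simp only [Complex.sub_re, Complex.ofReal_re, Complex.sub_im, Complex.ofReal_im]
    rw [hsub]
    ring
  rw [him, div_le_div_iff₀ hN0 (by positivity)]
  have h1 : (k * ρ * sin η - r * ρ * sin (η - κ) - x * r * sin κ) ≤ k * ρ * sin η := by
    have := mul_nonneg (mul_nonneg hr.le hρ.le) hsd
    have := mul_nonneg (mul_nonneg hx.le hr.le) hsκ
    linarith
  calc (k * ρ * sin η - r * ρ * sin (η - κ) - x * r * sin κ) * (2 * x)
      ≤ (k * ρ * sin η) * (2 * x) := by
        apply mul_le_mul_of_nonneg_right h1 (by positivity)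
    _ = k * sin η * (2 * x * ρ) := by ring
    _ ≤ k * sin η * Complex.normSq (z - x) :=
        mul_le_mul_of_nonneg_left hN1 (mul_nonneg hk.le hsη)

end H81P
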