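import Pool.Agent.H81R2.PN.Defs

set_option autoImplicit false

namespace H81P

open Finset Real

theorem ROL : S_ROL := by
  intro ι _ τ c x k Z hZ hs
  classical
  set a := Z.orderEmbOfFin hZ with ha
  have hmem : ∀ i, a i ∈ Z := fun i => Finset.orderEmbOfFin_mem Z hZ i
  set F : ℝ → ℝ := fun s => ∑ i, c i * exp ((τ i - x) * s) with hF
  set F' : ℝ → ℝ := fun s => ∑ i, (c i * (τ i - x)) * exp ((τ i - x) * s) with hF'
  have hd : ∀ s, HasDerivAt F (F' s) s := by
    intro s
    rw [hF, hF']
    apply HasDerivAt.fun_sum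
    intro i _
    have h1 : HasDerivAt (fun s : ℝ => (τ i - x) * s) (τ i - x) s := by
      simpa using (hasDerivAt_id s).const_mul (τ i - x)
    have h2 := (h1.exp).const_mul (c i)
    refine h2.congr_deriv ?_
    ring
  have hfac : ∀ s, F s = exp (-(x * s)) * ∑ i, c i * exp (τ i * s) := by
    intro s
    rw [hF, Finset.mul_sum]
    apply Finset.sum_congr rfl
    intro i _
    have : exp ((τ i - x) * s) = exp (-(x * s)) * exp (τ i * s) := by
      rw [← Real.exp_add]; congr 1; ring
    rw [this]; ring
  have hfac' : ∀ s, ∑ i, (c i * (τ i - x)) * exp (τ i * s) = exp (x * s) * F' s := by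
    intro s
    rw [hF', Finset.mul_sum]
    apply Finset.sum_congr rfl
    intro i _
    have : exp (τ i * s) = exp (x * s) * exp ((τ i - x) * s) := by
      rw [← Real.exp_add]; congr 1; ring
    rw [this]; ring
  have hz : ∀ i, F (a i) = 0 := by
    intro i
    rw [hfac, hs _ (hmem i), mul_zero]
  have hex : ∀ i : Fin k, ∃ p ∈ Set.Ioo (a i.castSucc) (a i.succ), F' p = 0 := by
    intro i
    have hlt : a i.castSucc < a i.succ := a.strictMono (Fin.castSucc_lt_succ)
    exact exists_hasDerivAt_eq_zero hlt
      (fun s _ => (hd s).continuousAt.continuousWithinAt) (by rw [hz, hz]) (fun s _ => hd s)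
  choose p hp hp0 using hex
  have hmono : StrictMono p := by
    intro i j hij
    have h1 : a i.succ ≤ a j.castSucc := by
      apply a.monotone
      rw [Fin.le_def]
      simp only [Fin.val_succ, Fin.val_castSucc]
      exact hij
    exact lt_of_lt_of_le (hp i).2 (h1.trans (hp j).1.le)
  refine ⟨Finset.univ.image p, ?_, ?_⟩
  · rw [Finset.card_image_of_injective _ hmono.injective]
    simp
  · intro s hs'
    obtain ⟨i, _, rfl⟩ := Finset.mem_image.mp hs'
    rw [hfac', hp0, mul_zero]

end H81P
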