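import Pool.Agent.H81R2.PN.Defs

/-! SGN: signs of `sin τ ∏ (τ - l π)`. -/

set_option autoImplicit false

namespace H81P

open Finset Real

theorem SGN_succ (N : ℕ) (τ : ℝ) :
    (((List.range (N + 1)).map (fun l : ℕ => ((l : ℝ) + 1) * π)).map (fun x => τ - x)).prod =
    (((List.range N).map (fun l : ℕ => ((l : ℝ) + 1) * π)).map (fun x => τ - x)).prod *
      (τ - ((N : ℝ) + 1) * π) := by
  rw [List.range_succ, List.map_append, List.map_append, List.prod_append]
  simp

theorem SGN_nonneg (N : ℕ) : ∀ τ : ℝ, 0 ≤ τ → τ ≤ ((N : ℝ) + 1) * π →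
    0 ≤ ((-1) ^ N * sin τ) *
      (((List.range N).map (fun l : ℕ => ((l : ℝ) + 1) * π)).map (fun x => τ - x)).prod := by
  induction N with
  | zero =>
    intro τ h0 h1
    have h2 : 0 ≤ sin τ := sin_nonneg_of_nonneg_of_le_pi h0 (by simpa using h1)
    simpa using h2
  | succ N ih =>
    intro τ h0 h1
    rcases le_total τ (((N : ℝ) + 1) * π) with h | h
    · have h2 := ih τ h0 h
      rw [SGN_succ]
      have h3 : 0 ≤ ((N : ℝ) + 1) * π - τ := sub_nonneg.2 h
      have h4 := mul_nonneg h2 h3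
      calc (0 : ℝ) ≤ _ := h4
        _ = _ := by rw [pow_succ]; ring
    · refine mul_nonneg ?_ ?_
      · have h5 : sin (τ - ((N + 1 : ℕ) : ℝ) * π) = (-1) ^ (N + 1) * sin τ :=
          sin_sub_nat_mul_pi τ (N + 1)
        rw [← h5]
        apply sin_nonneg_of_nonneg_of_le_pi
        · push_cast
          linarith
        · push_cast at h1 ⊢
          linarith
      · apply List.prod_nonneg
        intro a ha
        rw [List.mem_map] at ha
        obtain ⟨b, hb, rfl⟩ := ha
        rw [List.mem_map] at hb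
        obtain ⟨l, hl, rfl⟩ := hb
        rw [List.mem_range] at hl
        have h6 : (l : ℝ) ≤ N := by exact_mod_cast Nat.lt_succ_iff.1 hl
        have h7 : ((l : ℝ) + 1) * π ≤ ((N : ℝ) + 1) * π :=
          mul_le_mul_of_nonneg_right (by linarith) pi_pos.le
        linarith

theorem SGN_ne (N : ℕ) (τ : ℝ) (h : sin τ ≠ 0) :
    (((List.range N).map (fun l : ℕ => ((l : ℝ) + 1) * π)).map (fun x => τ - x)).prod ≠ 0 := by
  apply List.prod_ne_zero
  intro h0
  rw [List.mem_map] at h0
  obtain ⟨b, hb, h1⟩ := h0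
  rw [List.mem_map] at hb
  obtain ⟨l, _, rfl⟩ := hb
  apply h
  have h2 : τ = ((l + 1 : ℕ) : ℝ) * π := by
    push_cast
    linarith
  rw [h2]
  exact sin_nat_mul_pi _

theorem SGN : S_SGN := by
  intro N τ h0 h1
  have h1' : τ ≤ ((N : ℝ) + 1) * π := by
    push_cast at h1
    exact h1
  have h2 := SGN_nonneg N τ h0 h1'
  refine ⟨h2, fun h => lt_of_le_of_ne h2 (Ne.symm ?_)⟩
  exact mul_ne_zero (mul_ne_zero (pow_ne_zero _ (by norm_num)) h) (SGN_ne N τ h)

end H81P
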