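import Pool.Agent.H81R2.PN.Defs

/-! Task SUP: from concavity along positive directions to concavity. -/

set_option autoImplicit false

namespace H81P

open Finset Real

theorem SUP_bound {n : ℕ} (p q : Fin n → ℝ) (hp : ∀ j, 0 < p j) (hq : ∀ j, 0 < q j) :
    ∃ R : ℝ, 0 < R ∧ ∀ j, p j < R * q j := by
  refine ⟨1 + ∑ j, p j / q j, ?_, fun j => ?_⟩
  · have : 0 ≤ ∑ j, p j / q j := Finset.sum_nonneg fun j _ => (div_pos (hp j) (hq j)).le
    linarith
  · have h1 : p j / q j ≤ ∑ j, p j / q j :=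
      Finset.single_le_sum (f := fun j => p j / q j)
        (fun j _ => (div_pos (hp j) (hq j)).le) (Finset.mem_univ j)
    have h2 : p j / q j < 1 + ∑ j, p j / q j := by linarith
    rwa [div_lt_iff₀ (hq j)] at h2

theorem SUP_convex (n : ℕ) : Convex ℝ {x : Fin n → ℝ | ∀ j, 0 < x j} := by
  intro p hp q hq a b ha hb hab j
  have h1 : 0 < p j := hp j
  have h2 : 0 < q j := hq j
  show 0 < a * p j + b * q j
  rcases eq_or_lt_of_le ha with h | h
  · have hb1 : b = 1 := by linarith
    rw [← h, hb1]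
    linarith
  · have h3 : 0 < a * p j := mul_pos h h1
    have h4 : 0 ≤ b * q j := mul_nonneg hb h2.le
    linarith

theorem SUP : S_SUP := by
  intro n F hF hconc
  refine ⟨SUP_convex n, fun p hp q hq a b ha hb hab => ?_⟩
  have hp' : ∀ j, 0 < p j := hp
  have hq' : ∀ j, 0 < q j := hq
  rcases eq_or_lt_of_le ha with h0 | ha'
  · have hb1 : b = 1 := by linarith
    rw [← h0, hb1, zero_smul, zero_smul, one_smul, one_smul, zero_add, zero_add]
  rcases eq_or_lt_of_le hb with h0 | hb'
  · have ha1 : a = 1 := by linarith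
    rw [← h0, ha1, zero_smul, zero_smul, one_smul, one_smul, add_zero, add_zero]
  obtain ⟨R, hR, hRq⟩ := SUP_bound p q hp' hq'
  have hv : ∀ j, 0 < R * q j - p j := fun j => sub_pos.2 (hRq j)
  obtain ⟨S, hS, hSp⟩ := SUP_bound (fun j => R * q j - p j) p hv hp'
  have he : 0 < S⁻¹ := inv_pos.2 hS
  have hu : ∀ j, 0 < p j - S⁻¹ * (R * q j - p j) := by
    intro j
    have h1 : S⁻¹ * (R * q j - p j) < S⁻¹ * (S * p j) := mul_lt_mul_of_pos_left (hSp j) he
    rw [← mul_assoc, inv_mul_cancel₀ hS.ne', one_mul] at h1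
    linarith
  have hg := hconc (fun j => p j - S⁻¹ * (R * q j - p j)) (fun j => R * q j - p j) hu hv
  have hc : 0 < a + b / R := by positivity
  have hs1 : 0 < a / (a + b / R) := by positivity
  have hs2 : 0 < (b / R) / (a + b / R) := by positivity
  have hs : a / (a + b / R) + (b / R) / (a + b / R) = 1 := by
    rw [← add_div, div_self hc.ne']
  have key := hg.2 (show S⁻¹ ∈ Set.Ioi (0 : ℝ) from he)
    (show 1 + S⁻¹ ∈ Set.Ioi (0 : ℝ) by
      have : 0 < 1 + S⁻¹ := by linarith
      exact this) hs1.le hs2.le hs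
  simp only [smul_eq_mul] at key
  have e1 : (fun j => p j - S⁻¹ * (R * q j - p j) + S⁻¹ * (R * q j - p j)) = p := by
    funext j
    ring
  have e2 : (fun j => p j - S⁻¹ * (R * q j - p j) + (1 + S⁻¹) * (R * q j - p j)) =
      fun j => R * q j := by
    funext j
    ring
  rw [e1, e2, hF q R hR hq'] at key
  set c : ℝ := a + b / R with hcdef
  have e3 : a • p + b • q = fun j => c * ((p j - S⁻¹ * (R * q j - p j)) +
      (a / c * S⁻¹ + b / R / c * (1 + S⁻¹)) * (R * q j - p j)) := by
    funext j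
    show a * p j + b * q j = _
    have h1 : c * ((p j - S⁻¹ * (R * q j - p j)) +
        (a / c * S⁻¹ + b / R / c * (1 + S⁻¹)) * (R * q j - p j)) =
        c * (p j - S⁻¹ * (R * q j - p j)) +
        ((c * (a / c)) * S⁻¹ + (c * (b / R / c)) * (1 + S⁻¹)) * (R * q j - p j) := by ring
    rw [h1, mul_div_cancel₀ _ hc.ne', mul_div_cancel₀ _ hc.ne', hcdef]
    have h2 : b * q j = b / R * (R * q j) := by
      field_simp
    rw [h2]
    ring
  have hpos : ∀ j, 0 < (p j - S⁻¹ * (R * q j - p j)) +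
      (a / c * S⁻¹ + b / R / c * (1 + S⁻¹)) * (R * q j - p j) := by
    intro j
    have h1 : 0 < (a / c * S⁻¹ + b / R / c * (1 + S⁻¹)) * (R * q j - p j) :=
      mul_pos (by positivity) (hv j)
    have h2 := hu j
    linarith
  rw [e3, hF _ c hc hpos, smul_eq_mul, smul_eq_mul]
  have h5 := mul_le_mul_of_nonneg_left key hc.le
  refine le_trans (le_of_eq ?_) h5
  have h6 : c * (a / c * F p + b / R / c * (R * F q)) =
      (c * (a / c)) * F p + (c * (b / R / c)) * (R * F q) := by ring
  rw [h6, mul_div_cancel₀ _ hc.ne', mul_div_cancel₀ _ hc.ne']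
  congr 1
  field_simp

end H81P
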