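import Pool.Agent.H81R2.PN.Defs

/-! # XHP: the argument of `x(ζ)` -/

set_option autoImplicit false

namespace H81P

open Finset Real

private theorem XHP_arg (x : ℂ) (P Q θ : ℝ) (hP : 0 < P) (hQ : |Q| ≤ P) (h0 : 0 ≤ θ)
    (h1 : θ < π / 2) (hre : x.re = P * cos θ) (him : |x.im| = |Q| * sin θ) :
    0 < x.re ∧ |(Complex.log x).im| ≤ θ := by
  have hc : 0 < cos θ := cos_pos_of_mem_Ioo ⟨by linarith, h1⟩
  have hre0 : 0 < x.re := by rw [hre]; positivity
  refine ⟨hre0, ?_⟩
  rw [Complex.log_im]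
  have hlt : |Complex.arg x| < π / 2 := Complex.abs_arg_lt_pi_div_two_iff.mpr (Or.inl hre0)
  have h2 := abs_lt.mp hlt
  have h3 : Complex.arg x = arctan (x.im / x.re) := by
    rw [← Complex.tan_arg, arctan_tan h2.1 h2.2]
  have h4 : |x.im / x.re| ≤ tan θ := by
    rw [abs_div, abs_of_pos hre0, him, hre, tan_eq_sin_div_cos,
      div_le_div_iff₀ (by positivity) hc]
    have hs : 0 ≤ sin θ := sin_nonneg_of_nonneg_of_le_pi h0 (by linarith [pi_pos])
    have h5 : |Q| * sin θ * cos θ ≤ P * sin θ * cos θ := by gcongr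
    linarith
  have h6 := abs_le.mp h4
  rw [h3, abs_le]
  constructor
  · calc -θ = arctan (tan (-θ)) := (arctan_tan (by linarith) (by linarith)).symm
      _ ≤ arctan (x.im / x.re) := by
        rw [tan_neg]
        exact arctan_strictMono.monotone h6.1
  · calc arctan (x.im / x.re) ≤ arctan (tan θ) := arctan_strictMono.monotone h6.2
      _ = θ := arctan_tan (by linarith) h1

theorem XHP : S_XHP := by
  intro n u v hu hv ζ hζ j
  have hη : |ζ.im| < π := hζ
  have hre : (xx u v ζ j).re =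
      (exp (-ζ.re / 2) * u j + exp (ζ.re / 2) * v j) * cos (ζ.im / 2) := by
    unfold xx
    rw [Complex.add_re, Complex.re_mul_ofReal, Complex.re_mul_ofReal, Complex.exp_re,
      Complex.exp_re]
    have e1 : (-ζ / 2).re = -ζ.re / 2 := by simp
    have e2 : (-ζ / 2).im = -(ζ.im / 2) := by simp [neg_div]
    have e3 : (ζ / 2).re = ζ.re / 2 := by simp
    have e4 : (ζ / 2).im = ζ.im / 2 := by simp
    rw [e1, e2, e3, e4, cos_neg]
    ring
  have him : (xx u v ζ j).im =
      (exp (ζ.re / 2) * v j - exp (-ζ.re / 2) * u j) * sin (ζ.im / 2) := by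
    unfold xx
    rw [Complex.add_im, Complex.im_mul_ofReal, Complex.im_mul_ofReal, Complex.exp_im,
      Complex.exp_im]
    have e1 : (-ζ / 2).re = -ζ.re / 2 := by simp
    have e2 : (-ζ / 2).im = -(ζ.im / 2) := by simp [neg_div]
    have e3 : (ζ / 2).re = ζ.re / 2 := by simp
    have e4 : (ζ / 2).im = ζ.im / 2 := by simp
    rw [e1, e2, e3, e4, sin_neg]
    ring
  have hA : 0 < exp (-ζ.re / 2) * u j := mul_pos (exp_pos _) (hu j)
  have hB : 0 < exp (ζ.re / 2) * v j := mul_pos (exp_pos _) (hv j)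
  have hθ : |ζ.im| / 2 = |ζ.im / 2| := by rw [abs_div, abs_two]
  refine XHP_arg (xx u v ζ j) (exp (-ζ.re / 2) * u j + exp (ζ.re / 2) * v j)
    (exp (ζ.re / 2) * v j - exp (-ζ.re / 2) * u j) (|ζ.im| / 2) (by positivity) ?_
    (by positivity) (by linarith) ?_ ?_
  · rw [abs_le]
    constructor <;> linarith
  · rw [hre, hθ, cos_abs]
  · rw [him, abs_mul, hθ]
    congr 1
    exact abs_sin_eq_sin_abs_of_abs_le_pi (by rw [← hθ]; linarith [pi_pos])

end H81P
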